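import Mathlib

/-!
# The finite inequality behind the theorem on Ricci curvature, in reduced variables
-/

set_option autoImplicit false
set_option linter.unusedVariables false

namespace Pool.Agent.W714.RP

theorem pos0 (u0 u1 u2 u3 u4 v0 v1 v2 v3 v4 g0 g1 g2 g3 g4 w : ℝ)
    (hu0 : 0 ≤ u0) (hu1 : 0 ≤ u1) (hu2 : 0 ≤ u2) (hu3 : 0 ≤ u3) (hu4 : 0 ≤ u4)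
    (hv0 : 0 ≤ v0) (hv1 : 0 ≤ v1) (hv2 : 0 ≤ v2) (hv3 : 0 ≤ v3) (hv4 : 0 ≤ v4)
    (hg0 : 0 ≤ g0) (hg1 : 0 ≤ g1) (hg2 : 0 ≤ g2) (hg3 : 0 ≤ g3) (hg4 : 0 ≤ g4) (hw : 0 ≤ w) :
    0 ≤ (g0 + g1 + g2 + g3 + g4) * ((u0 + u1 + u2 + u3 + u4) - (1 / 3) * (g0 + g1 + g2 + g3 + g4)) ^
      2 := by
  positivity

theorem idn0 (u0 u1 u2 u3 u4 v0 v1 v2 v3 v4 g0 g1 g2 g3 g4 w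
    aS1 aT1 aS2 aM11 aT2 aS3 aM21 aM12 aT3 : ℝ)
    (e0 : g0 = 147 / 100 - u0 - v0)
    (e1 : g1 = 147 / 100 - u1 - v1)
    (e2 : g2 = 147 / 100 - u2 - v2)
    (e3 : g3 = 147 / 100 - u3 - v3)
    (e4 : g4 = 147 / 100 - u4 - v4)
    (ew : w = 147 / 100 - (u0 + u1 + u2 + u3 + u4))
    (h_aS1 : aS1 = u0 + u1 + u2 + u3 + u4)
    (h_aT1 : aT1 = v0 + v1 + v2 + v3 + v4)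
    (h_aS2 : aS2 = u0 ^ 2 + u1 ^ 2 + u2 ^ 2 + u3 ^ 2 + u4 ^ 2)
    (h_aM11 : aM11 = u0 * v0 + u1 * v1 + u2 * v2 + u3 * v3 + u4 * v4)
    (h_aT2 : aT2 = v0 ^ 2 + v1 ^ 2 + v2 ^ 2 + v3 ^ 2 + v4 ^ 2)
    (h_aS3 : aS3 = u0 ^ 3 + u1 ^ 3 + u2 ^ 3 + u3 ^ 3 + u4 ^ 3)
    (h_aM21 : aM21 = u0 ^ 2 * v0 + u1 ^ 2 * v1 + u2 ^ 2 * v2 + u3 ^ 2 * v3 + u4 ^ 2 * v4)
    (h_aM12 : aM12 = u0 * v0 ^ 2 + u1 * v1 ^ 2 + u2 * v2 ^ 2 + u3 * v3 ^ 2 + u4 * v4 ^ 2)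
    (h_aT3 : aT3 = v0 ^ 3 + v1 ^ 3 + v2 ^ 3 + v3 ^ 3 + v4 ^ 3) :
    (g0 + g1 + g2 + g3 + g4) * ((u0 + u1 + u2 + u3 + u4) - (1 / 3) * (g0 + g1 + g2 + g3 + g4)) ^
      2 =
      (352947 / 8000) + (-21609 / 400) * aS1 + (-7203 / 400) * aT1 + (98 / 5) * aS1 * aS1 + (147 /
      10) * aS1 * aT1 + (49 / 20) * aT1 * aT1 + (-16 / 9) * aS1 * aS1 * aS1 + (-8 / 3) * aS1 * aS1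
      * aT1 + (-1) * aS1 * aT1 * aT1 + (-1 / 9) * aT1 * aT1 * aT1 := by
  subst e0 e1 e2 e3 e4 ew h_aS1 h_aT1 h_aS2 h_aM11 h_aT2 h_aS3 h_aM21 h_aM12 h_aT3
  ring

theorem pos1 (u0 u1 u2 u3 u4 v0 v1 v2 v3 v4 g0 g1 g2 g3 g4 w : ℝ)
    (hu0 : 0 ≤ u0) (hu1 : 0 ≤ u1) (hu2 : 0 ≤ u2) (hu3 : 0 ≤ u3) (hu4 : 0 ≤ u4)
    (hv0 : 0 ≤ v0) (hv1 : 0 ≤ v1) (hv2 : 0 ≤ v2) (hv3 : 0 ≤ v3) (hv4 : 0 ≤ v4)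
    (hg0 : 0 ≤ g0) (hg1 : 0 ≤ g1) (hg2 : 0 ≤ g2) (hg3 : 0 ≤ g3) (hg4 : 0 ≤ g4) (hw : 0 ≤ w) :
    0 ≤ v0 * (v0 - 1 * (u0 + u1 + u2 + u3 + u4)) ^ 2 + v1 * (v1 - 1 * (u0 + u1 + u2 + u3 + u4)) ^ 2
      + v2 * (v2 - 1 * (u0 + u1 + u2 + u3 + u4)) ^ 2 + v3 * (v3 - 1 * (u0 + u1 + u2 + u3 + u4)) ^
      2 + v4 * (v4 - 1 * (u0 + u1 + u2 + u3 + u4)) ^ 2 := by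
  positivity

theorem idn1 (u0 u1 u2 u3 u4 v0 v1 v2 v3 v4 g0 g1 g2 g3 g4 w
    aS1 aT1 aS2 aM11 aT2 aS3 aM21 aM12 aT3 : ℝ)
    (e0 : g0 = 147 / 100 - u0 - v0)
    (e1 : g1 = 147 / 100 - u1 - v1)
    (e2 : g2 = 147 / 100 - u2 - v2)
    (e3 : g3 = 147 / 100 - u3 - v3)
    (e4 : g4 = 147 / 100 - u4 - v4)
    (ew : w = 147 / 100 - (u0 + u1 + u2 + u3 + u4))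
    (h_aS1 : aS1 = u0 + u1 + u2 + u3 + u4)
    (h_aT1 : aT1 = v0 + v1 + v2 + v3 + v4)
    (h_aS2 : aS2 = u0 ^ 2 + u1 ^ 2 + u2 ^ 2 + u3 ^ 2 + u4 ^ 2)
    (h_aM11 : aM11 = u0 * v0 + u1 * v1 + u2 * v2 + u3 * v3 + u4 * v4)
    (h_aT2 : aT2 = v0 ^ 2 + v1 ^ 2 + v2 ^ 2 + v3 ^ 2 + v4 ^ 2)
    (h_aS3 : aS3 = u0 ^ 3 + u1 ^ 3 + u2 ^ 3 + u3 ^ 3 + u4 ^ 3)
    (h_aM21 : aM21 = u0 ^ 2 * v0 + u1 ^ 2 * v1 + u2 ^ 2 * v2 + u3 ^ 2 * v3 + u4 ^ 2 * v4)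
    (h_aM12 : aM12 = u0 * v0 ^ 2 + u1 * v1 ^ 2 + u2 * v2 ^ 2 + u3 * v3 ^ 2 + u4 * v4 ^ 2)
    (h_aT3 : aT3 = v0 ^ 3 + v1 ^ 3 + v2 ^ 3 + v3 ^ 3 + v4 ^ 3) :
    v0 * (v0 - 1 * (u0 + u1 + u2 + u3 + u4)) ^ 2 + v1 * (v1 - 1 * (u0 + u1 + u2 + u3 + u4)) ^ 2
      + v2 * (v2 - 1 * (u0 + u1 + u2 + u3 + u4)) ^ 2 + v3 * (v3 - 1 * (u0 + u1 + u2 + u3 + u4)) ^
      2 + v4 * (v4 - 1 * (u0 + u1 + u2 + u3 + u4)) ^ 2 =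
      1 * aS1 * aS1 * aT1 + (-2) * aS1 * aT2 + 1 * aT3 := by
  subst e0 e1 e2 e3 e4 ew h_aS1 h_aT1 h_aS2 h_aM11 h_aT2 h_aS3 h_aM21 h_aM12 h_aT3
  ring

theorem pos2 (u0 u1 u2 u3 u4 v0 v1 v2 v3 v4 g0 g1 g2 g3 g4 w : ℝ)
    (hu0 : 0 ≤ u0) (hu1 : 0 ≤ u1) (hu2 : 0 ≤ u2) (hu3 : 0 ≤ u3) (hu4 : 0 ≤ u4)
    (hv0 : 0 ≤ v0) (hv1 : 0 ≤ v1) (hv2 : 0 ≤ v2) (hv3 : 0 ≤ v3) (hv4 : 0 ≤ v4)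
    (hg0 : 0 ≤ g0) (hg1 : 0 ≤ g1) (hg2 : 0 ≤ g2) (hg3 : 0 ≤ g3) (hg4 : 0 ≤ g4) (hw : 0 ≤ w) :
    0 ≤ v0 * g0 * (g1 + g2 + g3 + g4) + v1 * g1 * (g0 + g2 + g3 + g4) + v2 * g2 * (g0 + g1 + g3 +
      g4) + v3 * g3 * (g0 + g1 + g2 + g4) + v4 * g4 * (g0 + g1 + g2 + g3) := by
  positivity

theorem idn2 (u0 u1 u2 u3 u4 v0 v1 v2 v3 v4 g0 g1 g2 g3 g4 w
    aS1 aT1 aS2 aM11 aT2 aS3 aM21 aM12 aT3 : ℝ)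
    (e0 : g0 = 147 / 100 - u0 - v0)
    (e1 : g1 = 147 / 100 - u1 - v1)
    (e2 : g2 = 147 / 100 - u2 - v2)
    (e3 : g3 = 147 / 100 - u3 - v3)
    (e4 : g4 = 147 / 100 - u4 - v4)
    (ew : w = 147 / 100 - (u0 + u1 + u2 + u3 + u4))
    (h_aS1 : aS1 = u0 + u1 + u2 + u3 + u4)
    (h_aT1 : aT1 = v0 + v1 + v2 + v3 + v4)
    (h_aS2 : aS2 = u0 ^ 2 + u1 ^ 2 + u2 ^ 2 + u3 ^ 2 + u4 ^ 2)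
    (h_aM11 : aM11 = u0 * v0 + u1 * v1 + u2 * v2 + u3 * v3 + u4 * v4)
    (h_aT2 : aT2 = v0 ^ 2 + v1 ^ 2 + v2 ^ 2 + v3 ^ 2 + v4 ^ 2)
    (h_aS3 : aS3 = u0 ^ 3 + u1 ^ 3 + u2 ^ 3 + u3 ^ 3 + u4 ^ 3)
    (h_aM21 : aM21 = u0 ^ 2 * v0 + u1 ^ 2 * v1 + u2 ^ 2 * v2 + u3 ^ 2 * v3 + u4 ^ 2 * v4)
    (h_aM12 : aM12 = u0 * v0 ^ 2 + u1 * v1 ^ 2 + u2 * v2 ^ 2 + u3 * v3 ^ 2 + u4 * v4 ^ 2)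
    (h_aT3 : aT3 = v0 ^ 3 + v1 ^ 3 + v2 ^ 3 + v3 ^ 3 + v4 ^ 3) :
    v0 * g0 * (g1 + g2 + g3 + g4) + v1 * g1 * (g0 + g2 + g3 + g4) + v2 * g2 * (g0 + g1 + g3 +
      g4) + v3 * g3 * (g0 + g1 + g2 + g4) + v4 * g4 * (g0 + g1 + g2 + g3) =
      (21609 / 2500) * aT1 + (-147 / 100) * aS1 * aT1 + (-147 / 100) * aT1 * aT1 + (-441 / 100) *
      aM11 + (-441 / 100) * aT2 + 1 * aS1 * aM11 + 1 * aS1 * aT2 + 1 * aT1 * aM11 + 1 * aT1 * aT2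
      + (-1) * aM21 + (-2) * aM12 + (-1) * aT3 := by
  subst e0 e1 e2 e3 e4 ew h_aS1 h_aT1 h_aS2 h_aM11 h_aT2 h_aS3 h_aM21 h_aM12 h_aT3
  ring

theorem pos3 (u0 u1 u2 u3 u4 v0 v1 v2 v3 v4 g0 g1 g2 g3 g4 w : ℝ)
    (hu0 : 0 ≤ u0) (hu1 : 0 ≤ u1) (hu2 : 0 ≤ u2) (hu3 : 0 ≤ u3) (hu4 : 0 ≤ u4)
    (hv0 : 0 ≤ v0) (hv1 : 0 ≤ v1) (hv2 : 0 ≤ v2) (hv3 : 0 ≤ v3) (hv4 : 0 ≤ v4)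
    (hg0 : 0 ≤ g0) (hg1 : 0 ≤ g1) (hg2 : 0 ≤ g2) (hg3 : 0 ≤ g3) (hg4 : 0 ≤ g4) (hw : 0 ≤ w) :
    0 ≤ v0 * (u0 - (1 / 8) * (g0 + g1 + g2 + g3 + g4)) ^ 2 + v1 * (u1 - (1 / 8) * (g0 + g1 + g2 + g3
      + g4)) ^ 2 + v2 * (u2 - (1 / 8) * (g0 + g1 + g2 + g3 + g4)) ^ 2 + v3 * (u3 - (1 / 8) * (g0 +
      g1 + g2 + g3 + g4)) ^ 2 + v4 * (u4 - (1 / 8) * (g0 + g1 + g2 + g3 + g4)) ^ 2 := by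
  positivity

theorem idn3 (u0 u1 u2 u3 u4 v0 v1 v2 v3 v4 g0 g1 g2 g3 g4 w
    aS1 aT1 aS2 aM11 aT2 aS3 aM21 aM12 aT3 : ℝ)
    (e0 : g0 = 147 / 100 - u0 - v0)
    (e1 : g1 = 147 / 100 - u1 - v1)
    (e2 : g2 = 147 / 100 - u2 - v2)
    (e3 : g3 = 147 / 100 - u3 - v3)
    (e4 : g4 = 147 / 100 - u4 - v4)
    (ew : w = 147 / 100 - (u0 + u1 + u2 + u3 + u4))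
    (h_aS1 : aS1 = u0 + u1 + u2 + u3 + u4)
    (h_aT1 : aT1 = v0 + v1 + v2 + v3 + v4)
    (h_aS2 : aS2 = u0 ^ 2 + u1 ^ 2 + u2 ^ 2 + u3 ^ 2 + u4 ^ 2)
    (h_aM11 : aM11 = u0 * v0 + u1 * v1 + u2 * v2 + u3 * v3 + u4 * v4)
    (h_aT2 : aT2 = v0 ^ 2 + v1 ^ 2 + v2 ^ 2 + v3 ^ 2 + v4 ^ 2)
    (h_aS3 : aS3 = u0 ^ 3 + u1 ^ 3 + u2 ^ 3 + u3 ^ 3 + u4 ^ 3)
    (h_aM21 : aM21 = u0 ^ 2 * v0 + u1 ^ 2 * v1 + u2 ^ 2 * v2 + u3 ^ 2 * v3 + u4 ^ 2 * v4)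
    (h_aM12 : aM12 = u0 * v0 ^ 2 + u1 * v1 ^ 2 + u2 * v2 ^ 2 + u3 * v3 ^ 2 + u4 * v4 ^ 2)
    (h_aT3 : aT3 = v0 ^ 3 + v1 ^ 3 + v2 ^ 3 + v3 ^ 3 + v4 ^ 3) :
    v0 * (u0 - (1 / 8) * (g0 + g1 + g2 + g3 + g4)) ^ 2 + v1 * (u1 - (1 / 8) * (g0 + g1 + g2 + g3
      + g4)) ^ 2 + v2 * (u2 - (1 / 8) * (g0 + g1 + g2 + g3 + g4)) ^ 2 + v3 * (u3 - (1 / 8) * (g0 +
      g1 + g2 + g3 + g4)) ^ 2 + v4 * (u4 - (1 / 8) * (g0 + g1 + g2 + g3 + g4)) ^ 2 =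
      (21609 / 25600) * aT1 + (-147 / 640) * aS1 * aT1 + (-147 / 640) * aT1 * aT1 + (-147 / 80) *
      aM11 + (1 / 64) * aS1 * aS1 * aT1 + (1 / 32) * aS1 * aT1 * aT1 + (1 / 64) * aT1 * aT1 * aT1
      + (1 / 4) * aS1 * aM11 + (1 / 4) * aT1 * aM11 + 1 * aM21 := by
  subst e0 e1 e2 e3 e4 ew h_aS1 h_aT1 h_aS2 h_aM11 h_aT2 h_aS3 h_aM21 h_aM12 h_aT3
  ring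

theorem pos4 (u0 u1 u2 u3 u4 v0 v1 v2 v3 v4 g0 g1 g2 g3 g4 w : ℝ)
    (hu0 : 0 ≤ u0) (hu1 : 0 ≤ u1) (hu2 : 0 ≤ u2) (hu3 : 0 ≤ u3) (hu4 : 0 ≤ u4)
    (hv0 : 0 ≤ v0) (hv1 : 0 ≤ v1) (hv2 : 0 ≤ v2) (hv3 : 0 ≤ v3) (hv4 : 0 ≤ v4)
    (hg0 : 0 ≤ g0) (hg1 : 0 ≤ g1) (hg2 : 0 ≤ g2) (hg3 : 0 ≤ g3) (hg4 : 0 ≤ g4) (hw : 0 ≤ w) :
    0 ≤ u0 * (u1 + 4 * g0) ^ 2 + u0 * (u2 + 4 * g0) ^ 2 + u0 * (u3 + 4 * g0) ^ 2 + u0 * (u4 + 4 *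
      g0) ^ 2 + u1 * (u0 + 4 * g1) ^ 2 + u1 * (u2 + 4 * g1) ^ 2 + u1 * (u3 + 4 * g1) ^ 2 + u1 *
      (u4 + 4 * g1) ^ 2 + u2 * (u0 + 4 * g2) ^ 2 + u2 * (u1 + 4 * g2) ^ 2 + u2 * (u3 + 4 * g2) ^ 2
      + u2 * (u4 + 4 * g2) ^ 2 + u3 * (u0 + 4 * g3) ^ 2 + u3 * (u1 + 4 * g3) ^ 2 + u3 * (u2 + 4 *
      g3) ^ 2 + u3 * (u4 + 4 * g3) ^ 2 + u4 * (u0 + 4 * g4) ^ 2 + u4 * (u1 + 4 * g4) ^ 2 + u4 *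
      (u2 + 4 * g4) ^ 2 + u4 * (u3 + 4 * g4) ^ 2 := by
  positivity

theorem idn4 (u0 u1 u2 u3 u4 v0 v1 v2 v3 v4 g0 g1 g2 g3 g4 w
    aS1 aT1 aS2 aM11 aT2 aS3 aM21 aM12 aT3 : ℝ)
    (e0 : g0 = 147 / 100 - u0 - v0)
    (e1 : g1 = 147 / 100 - u1 - v1)
    (e2 : g2 = 147 / 100 - u2 - v2)
    (e3 : g3 = 147 / 100 - u3 - v3)
    (e4 : g4 = 147 / 100 - u4 - v4)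
    (ew : w = 147 / 100 - (u0 + u1 + u2 + u3 + u4))
    (h_aS1 : aS1 = u0 + u1 + u2 + u3 + u4)
    (h_aT1 : aT1 = v0 + v1 + v2 + v3 + v4)
    (h_aS2 : aS2 = u0 ^ 2 + u1 ^ 2 + u2 ^ 2 + u3 ^ 2 + u4 ^ 2)
    (h_aM11 : aM11 = u0 * v0 + u1 * v1 + u2 * v2 + u3 * v3 + u4 * v4)
    (h_aT2 : aT2 = v0 ^ 2 + v1 ^ 2 + v2 ^ 2 + v3 ^ 2 + v4 ^ 2)
    (h_aS3 : aS3 = u0 ^ 3 + u1 ^ 3 + u2 ^ 3 + u3 ^ 3 + u4 ^ 3)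
    (h_aM21 : aM21 = u0 ^ 2 * v0 + u1 ^ 2 * v1 + u2 ^ 2 * v2 + u3 ^ 2 * v3 + u4 ^ 2 * v4)
    (h_aM12 : aM12 = u0 * v0 ^ 2 + u1 * v1 ^ 2 + u2 * v2 ^ 2 + u3 * v3 ^ 2 + u4 * v4 ^ 2)
    (h_aT3 : aT3 = v0 ^ 3 + v1 ^ 3 + v2 ^ 3 + v3 ^ 3 + v4 ^ 3) :
    u0 * (u1 + 4 * g0) ^ 2 + u0 * (u2 + 4 * g0) ^ 2 + u0 * (u3 + 4 * g0) ^ 2 + u0 * (u4 + 4 *
      g0) ^ 2 + u1 * (u0 + 4 * g1) ^ 2 + u1 * (u2 + 4 * g1) ^ 2 + u1 * (u3 + 4 * g1) ^ 2 + u1 *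
      (u4 + 4 * g1) ^ 2 + u2 * (u0 + 4 * g2) ^ 2 + u2 * (u1 + 4 * g2) ^ 2 + u2 * (u3 + 4 * g2) ^ 2
      + u2 * (u4 + 4 * g2) ^ 2 + u3 * (u0 + 4 * g3) ^ 2 + u3 * (u1 + 4 * g3) ^ 2 + u3 * (u2 + 4 *
      g3) ^ 2 + u3 * (u4 + 4 * g3) ^ 2 + u4 * (u0 + 4 * g4) ^ 2 + u4 * (u1 + 4 * g4) ^ 2 + u4 *
      (u2 + 4 * g4) ^ 2 + u4 * (u3 + 4 * g4) ^ 2 =
      (86436 / 625) * aS1 + (294 / 25) * aS1 * aS1 + (-4998 / 25) * aS2 + (-4704 / 25) * aM11 +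
      (-7) * aS1 * aS2 + (-8) * aS1 * aM11 + 71 * aS3 + 136 * aM21 + 64 * aM12 := by
  subst e0 e1 e2 e3 e4 ew h_aS1 h_aT1 h_aS2 h_aM11 h_aT2 h_aS3 h_aM21 h_aM12 h_aT3
  ring

theorem pos5 (u0 u1 u2 u3 u4 v0 v1 v2 v3 v4 g0 g1 g2 g3 g4 w : ℝ)
    (hu0 : 0 ≤ u0) (hu1 : 0 ≤ u1) (hu2 : 0 ≤ u2) (hu3 : 0 ≤ u3) (hu4 : 0 ≤ u4)
    (hv0 : 0 ≤ v0) (hv1 : 0 ≤ v1) (hv2 : 0 ≤ v2) (hv3 : 0 ≤ v3) (hv4 : 0 ≤ v4)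
    (hg0 : 0 ≤ g0) (hg1 : 0 ≤ g1) (hg2 : 0 ≤ g2) (hg3 : 0 ≤ g3) (hg4 : 0 ≤ g4) (hw : 0 ≤ w) :
    0 ≤ u0 * (v0 - 5 * u1) ^ 2 + u0 * (v0 - 5 * u2) ^ 2 + u0 * (v0 - 5 * u3) ^ 2 + u0 * (v0 - 5 *
      u4) ^ 2 + u1 * (v1 - 5 * u0) ^ 2 + u1 * (v1 - 5 * u2) ^ 2 + u1 * (v1 - 5 * u3) ^ 2 + u1 *
      (v1 - 5 * u4) ^ 2 + u2 * (v2 - 5 * u0) ^ 2 + u2 * (v2 - 5 * u1) ^ 2 + u2 * (v2 - 5 * u3) ^ 2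
      + u2 * (v2 - 5 * u4) ^ 2 + u3 * (v3 - 5 * u0) ^ 2 + u3 * (v3 - 5 * u1) ^ 2 + u3 * (v3 - 5 *
      u2) ^ 2 + u3 * (v3 - 5 * u4) ^ 2 + u4 * (v4 - 5 * u0) ^ 2 + u4 * (v4 - 5 * u1) ^ 2 + u4 *
      (v4 - 5 * u2) ^ 2 + u4 * (v4 - 5 * u3) ^ 2 := by
  positivity

theorem idn5 (u0 u1 u2 u3 u4 v0 v1 v2 v3 v4 g0 g1 g2 g3 g4 w
    aS1 aT1 aS2 aM11 aT2 aS3 aM21 aM12 aT3 : ℝ)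
    (e0 : g0 = 147 / 100 - u0 - v0)
    (e1 : g1 = 147 / 100 - u1 - v1)
    (e2 : g2 = 147 / 100 - u2 - v2)
    (e3 : g3 = 147 / 100 - u3 - v3)
    (e4 : g4 = 147 / 100 - u4 - v4)
    (ew : w = 147 / 100 - (u0 + u1 + u2 + u3 + u4))
    (h_aS1 : aS1 = u0 + u1 + u2 + u3 + u4)
    (h_aT1 : aT1 = v0 + v1 + v2 + v3 + v4)
    (h_aS2 : aS2 = u0 ^ 2 + u1 ^ 2 + u2 ^ 2 + u3 ^ 2 + u4 ^ 2)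
    (h_aM11 : aM11 = u0 * v0 + u1 * v1 + u2 * v2 + u3 * v3 + u4 * v4)
    (h_aT2 : aT2 = v0 ^ 2 + v1 ^ 2 + v2 ^ 2 + v3 ^ 2 + v4 ^ 2)
    (h_aS3 : aS3 = u0 ^ 3 + u1 ^ 3 + u2 ^ 3 + u3 ^ 3 + u4 ^ 3)
    (h_aM21 : aM21 = u0 ^ 2 * v0 + u1 ^ 2 * v1 + u2 ^ 2 * v2 + u3 ^ 2 * v3 + u4 ^ 2 * v4)
    (h_aM12 : aM12 = u0 * v0 ^ 2 + u1 * v1 ^ 2 + u2 * v2 ^ 2 + u3 * v3 ^ 2 + u4 * v4 ^ 2)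
    (h_aT3 : aT3 = v0 ^ 3 + v1 ^ 3 + v2 ^ 3 + v3 ^ 3 + v4 ^ 3) :
    u0 * (v0 - 5 * u1) ^ 2 + u0 * (v0 - 5 * u2) ^ 2 + u0 * (v0 - 5 * u3) ^ 2 + u0 * (v0 - 5 *
      u4) ^ 2 + u1 * (v1 - 5 * u0) ^ 2 + u1 * (v1 - 5 * u2) ^ 2 + u1 * (v1 - 5 * u3) ^ 2 + u1 *
      (v1 - 5 * u4) ^ 2 + u2 * (v2 - 5 * u0) ^ 2 + u2 * (v2 - 5 * u1) ^ 2 + u2 * (v2 - 5 * u3) ^ 2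
      + u2 * (v2 - 5 * u4) ^ 2 + u3 * (v3 - 5 * u0) ^ 2 + u3 * (v3 - 5 * u1) ^ 2 + u3 * (v3 - 5 *
      u2) ^ 2 + u3 * (v3 - 5 * u4) ^ 2 + u4 * (v4 - 5 * u0) ^ 2 + u4 * (v4 - 5 * u1) ^ 2 + u4 *
      (v4 - 5 * u2) ^ 2 + u4 * (v4 - 5 * u3) ^ 2 =
      25 * aS1 * aS2 + (-10) * aS1 * aM11 + (-25) * aS3 + 10 * aM21 + 4 * aM12 := by
  subst e0 e1 e2 e3 e4 ew h_aS1 h_aT1 h_aS2 h_aM11 h_aT2 h_aS3 h_aM21 h_aM12 h_aT3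
  ring

theorem pos6 (u0 u1 u2 u3 u4 v0 v1 v2 v3 v4 g0 g1 g2 g3 g4 w : ℝ)
    (hu0 : 0 ≤ u0) (hu1 : 0 ≤ u1) (hu2 : 0 ≤ u2) (hu3 : 0 ≤ u3) (hu4 : 0 ≤ u4)
    (hv0 : 0 ≤ v0) (hv1 : 0 ≤ v1) (hv2 : 0 ≤ v2) (hv3 : 0 ≤ v3) (hv4 : 0 ≤ v4)
    (hg0 : 0 ≤ g0) (hg1 : 0 ≤ g1) (hg2 : 0 ≤ g2) (hg3 : 0 ≤ g3) (hg4 : 0 ≤ g4) (hw : 0 ≤ w) :
    0 ≤ w * (((u0 + u1 + u2 + u3 + u4) - 5 * u0) ^ 2 + ((u0 + u1 + u2 + u3 + u4) - 5 * u1) ^ 2 +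
      ((u0 + u1 + u2 + u3 + u4) - 5 * u2) ^ 2 + ((u0 + u1 + u2 + u3 + u4) - 5 * u3) ^ 2 + ((u0 +
      u1 + u2 + u3 + u4) - 5 * u4) ^ 2) := by
  positivity

theorem idn6 (u0 u1 u2 u3 u4 v0 v1 v2 v3 v4 g0 g1 g2 g3 g4 w
    aS1 aT1 aS2 aM11 aT2 aS3 aM21 aM12 aT3 : ℝ)
    (e0 : g0 = 147 / 100 - u0 - v0)
    (e1 : g1 = 147 / 100 - u1 - v1)
    (e2 : g2 = 147 / 100 - u2 - v2)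
    (e3 : g3 = 147 / 100 - u3 - v3)
    (e4 : g4 = 147 / 100 - u4 - v4)
    (ew : w = 147 / 100 - (u0 + u1 + u2 + u3 + u4))
    (h_aS1 : aS1 = u0 + u1 + u2 + u3 + u4)
    (h_aT1 : aT1 = v0 + v1 + v2 + v3 + v4)
    (h_aS2 : aS2 = u0 ^ 2 + u1 ^ 2 + u2 ^ 2 + u3 ^ 2 + u4 ^ 2)
    (h_aM11 : aM11 = u0 * v0 + u1 * v1 + u2 * v2 + u3 * v3 + u4 * v4)
    (h_aT2 : aT2 = v0 ^ 2 + v1 ^ 2 + v2 ^ 2 + v3 ^ 2 + v4 ^ 2)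
    (h_aS3 : aS3 = u0 ^ 3 + u1 ^ 3 + u2 ^ 3 + u3 ^ 3 + u4 ^ 3)
    (h_aM21 : aM21 = u0 ^ 2 * v0 + u1 ^ 2 * v1 + u2 ^ 2 * v2 + u3 ^ 2 * v3 + u4 ^ 2 * v4)
    (h_aM12 : aM12 = u0 * v0 ^ 2 + u1 * v1 ^ 2 + u2 * v2 ^ 2 + u3 * v3 ^ 2 + u4 * v4 ^ 2)
    (h_aT3 : aT3 = v0 ^ 3 + v1 ^ 3 + v2 ^ 3 + v3 ^ 3 + v4 ^ 3) :
    w * (((u0 + u1 + u2 + u3 + u4) - 5 * u0) ^ 2 + ((u0 + u1 + u2 + u3 + u4) - 5 * u1) ^ 2 +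
      ((u0 + u1 + u2 + u3 + u4) - 5 * u2) ^ 2 + ((u0 + u1 + u2 + u3 + u4) - 5 * u3) ^ 2 + ((u0 +
      u1 + u2 + u3 + u4) - 5 * u4) ^ 2) =
      (-147 / 20) * aS1 * aS1 + (147 / 4) * aS2 + 5 * aS1 * aS1 * aS1 + (-25) * aS1 * aS2 := by
  subst e0 e1 e2 e3 e4 ew h_aS1 h_aT1 h_aS2 h_aM11 h_aT2 h_aS3 h_aM21 h_aM12 h_aT3
  ring

theorem pos7 (u0 u1 u2 u3 u4 v0 v1 v2 v3 v4 g0 g1 g2 g3 g4 w : ℝ)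
    (hu0 : 0 ≤ u0) (hu1 : 0 ≤ u1) (hu2 : 0 ≤ u2) (hu3 : 0 ≤ u3) (hu4 : 0 ≤ u4)
    (hv0 : 0 ≤ v0) (hv1 : 0 ≤ v1) (hv2 : 0 ≤ v2) (hv3 : 0 ≤ v3) (hv4 : 0 ≤ v4)
    (hg0 : 0 ≤ g0) (hg1 : 0 ≤ g1) (hg2 : 0 ≤ g2) (hg3 : 0 ≤ g3) (hg4 : 0 ≤ g4) (hw : 0 ≤ w) :
    0 ≤ (g0 + g1 + g2 + g3 + g4) * (w - (1 / 8) * (v0 + v1 + v2 + v3 + v4)) ^ 2 := by
  positivity

theorem idn7 (u0 u1 u2 u3 u4 v0 v1 v2 v3 v4 g0 g1 g2 g3 g4 w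
    aS1 aT1 aS2 aM11 aT2 aS3 aM21 aM12 aT3 : ℝ)
    (e0 : g0 = 147 / 100 - u0 - v0)
    (e1 : g1 = 147 / 100 - u1 - v1)
    (e2 : g2 = 147 / 100 - u2 - v2)
    (e3 : g3 = 147 / 100 - u3 - v3)
    (e4 : g4 = 147 / 100 - u4 - v4)
    (ew : w = 147 / 100 - (u0 + u1 + u2 + u3 + u4))
    (h_aS1 : aS1 = u0 + u1 + u2 + u3 + u4)
    (h_aT1 : aT1 = v0 + v1 + v2 + v3 + v4)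
    (h_aS2 : aS2 = u0 ^ 2 + u1 ^ 2 + u2 ^ 2 + u3 ^ 2 + u4 ^ 2)
    (h_aM11 : aM11 = u0 * v0 + u1 * v1 + u2 * v2 + u3 * v3 + u4 * v4)
    (h_aT2 : aT2 = v0 ^ 2 + v1 ^ 2 + v2 ^ 2 + v3 ^ 2 + v4 ^ 2)
    (h_aS3 : aS3 = u0 ^ 3 + u1 ^ 3 + u2 ^ 3 + u3 ^ 3 + u4 ^ 3)
    (h_aM21 : aM21 = u0 ^ 2 * v0 + u1 ^ 2 * v1 + u2 ^ 2 * v2 + u3 ^ 2 * v3 + u4 ^ 2 * v4)
    (h_aM12 : aM12 = u0 * v0 ^ 2 + u1 * v1 ^ 2 + u2 * v2 ^ 2 + u3 * v3 ^ 2 + u4 * v4 ^ 2)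
    (h_aT3 : aT3 = v0 ^ 3 + v1 ^ 3 + v2 ^ 3 + v3 ^ 3 + v4 ^ 3) :
    (g0 + g1 + g2 + g3 + g4) * (w - (1 / 8) * (v0 + v1 + v2 + v3 + v4)) ^ 2 =
      (3176523 / 200000) + (-237699 / 10000) * aS1 + (-194481 / 40000) * aT1 + (1029 / 100) * aS1
      * aS1 + (1029 / 200) * aS1 * aT1 + (3087 / 6400) * aT1 * aT1 + (-1) * aS1 * aS1 * aS1 + (-5
      / 4) * aS1 * aS1 * aT1 + (-17 / 64) * aS1 * aT1 * aT1 + (-1 / 64) * aT1 * aT1 * aT1 := by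
  subst e0 e1 e2 e3 e4 ew h_aS1 h_aT1 h_aS2 h_aM11 h_aT2 h_aS3 h_aM21 h_aM12 h_aT3
  ring

theorem pos8 (u0 u1 u2 u3 u4 v0 v1 v2 v3 v4 g0 g1 g2 g3 g4 w : ℝ)
    (hu0 : 0 ≤ u0) (hu1 : 0 ≤ u1) (hu2 : 0 ≤ u2) (hu3 : 0 ≤ u3) (hu4 : 0 ≤ u4)
    (hv0 : 0 ≤ v0) (hv1 : 0 ≤ v1) (hv2 : 0 ≤ v2) (hv3 : 0 ≤ v3) (hv4 : 0 ≤ v4)
    (hg0 : 0 ≤ g0) (hg1 : 0 ≤ g1) (hg2 : 0 ≤ g2) (hg3 : 0 ≤ g3) (hg4 : 0 ≤ g4) (hw : 0 ≤ w) :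
    0 ≤ g0 * (u0 - (1 / 8) * w) ^ 2 + g1 * (u1 - (1 / 8) * w) ^ 2 + g2 * (u2 - (1 / 8) * w) ^ 2 + g3
      * (u3 - (1 / 8) * w) ^ 2 + g4 * (u4 - (1 / 8) * w) ^ 2 := by
  positivity

theorem idn8 (u0 u1 u2 u3 u4 v0 v1 v2 v3 v4 g0 g1 g2 g3 g4 w
    aS1 aT1 aS2 aM11 aT2 aS3 aM21 aM12 aT3 : ℝ)
    (e0 : g0 = 147 / 100 - u0 - v0)
    (e1 : g1 = 147 / 100 - u1 - v1)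
    (e2 : g2 = 147 / 100 - u2 - v2)
    (e3 : g3 = 147 / 100 - u3 - v3)
    (e4 : g4 = 147 / 100 - u4 - v4)
    (ew : w = 147 / 100 - (u0 + u1 + u2 + u3 + u4))
    (h_aS1 : aS1 = u0 + u1 + u2 + u3 + u4)
    (h_aT1 : aT1 = v0 + v1 + v2 + v3 + v4)
    (h_aS2 : aS2 = u0 ^ 2 + u1 ^ 2 + u2 ^ 2 + u3 ^ 2 + u4 ^ 2)
    (h_aM11 : aM11 = u0 * v0 + u1 * v1 + u2 * v2 + u3 * v3 + u4 * v4)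
    (h_aT2 : aT2 = v0 ^ 2 + v1 ^ 2 + v2 ^ 2 + v3 ^ 2 + v4 ^ 2)
    (h_aS3 : aS3 = u0 ^ 3 + u1 ^ 3 + u2 ^ 3 + u3 ^ 3 + u4 ^ 3)
    (h_aM21 : aM21 = u0 ^ 2 * v0 + u1 ^ 2 * v1 + u2 ^ 2 * v2 + u3 ^ 2 * v3 + u4 ^ 2 * v4)
    (h_aM12 : aM12 = u0 * v0 ^ 2 + u1 * v1 ^ 2 + u2 * v2 ^ 2 + u3 * v3 ^ 2 + u4 * v4 ^ 2)
    (h_aT3 : aT3 = v0 ^ 3 + v1 ^ 3 + v2 ^ 3 + v3 ^ 3 + v4 ^ 3) :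
    g0 * (u0 - (1 / 8) * w) ^ 2 + g1 * (u1 - (1 / 8) * w) ^ 2 + g2 * (u2 - (1 / 8) * w) ^ 2 + g3
      * (u3 - (1 / 8) * w) ^ 2 + g4 * (u4 - (1 / 8) * w) ^ 2 =
      (3176523 / 12800000) + (-583443 / 640000) * aS1 + (-21609 / 640000) * aT1 + (3381 / 6400) *
      aS1 * aS1 + (147 / 3200) * aS1 * aT1 + (147 / 80) * aS2 + (147 / 400) * aM11 + (-1 / 64) *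
      aS1 * aS1 * aS1 + (-1 / 64) * aS1 * aS1 * aT1 + (-1 / 4) * aS1 * aS2 + (-1 / 4) * aS1 * aM11
      + (-1) * aS3 + (-1) * aM21 := by
  subst e0 e1 e2 e3 e4 ew h_aS1 h_aT1 h_aS2 h_aM11 h_aT2 h_aS3 h_aM21 h_aM12 h_aT3
  ring

theorem pos9 (u0 u1 u2 u3 u4 v0 v1 v2 v3 v4 g0 g1 g2 g3 g4 w : ℝ)
    (hu0 : 0 ≤ u0) (hu1 : 0 ≤ u1) (hu2 : 0 ≤ u2) (hu3 : 0 ≤ u3) (hu4 : 0 ≤ u4)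
    (hv0 : 0 ≤ v0) (hv1 : 0 ≤ v1) (hv2 : 0 ≤ v2) (hv3 : 0 ≤ v3) (hv4 : 0 ≤ v4)
    (hg0 : 0 ≤ g0) (hg1 : 0 ≤ g1) (hg2 : 0 ≤ g2) (hg3 : 0 ≤ g3) (hg4 : 0 ≤ g4) (hw : 0 ≤ w) :
    0 ≤ u0 * g0 * (u1 + u2 + u3 + u4) + u1 * g1 * (u0 + u2 + u3 + u4) + u2 * g2 * (u0 + u1 + u3 +
      u4) + u3 * g3 * (u0 + u1 + u2 + u4) + u4 * g4 * (u0 + u1 + u2 + u3) := by
  positivity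

theorem idn9 (u0 u1 u2 u3 u4 v0 v1 v2 v3 v4 g0 g1 g2 g3 g4 w
    aS1 aT1 aS2 aM11 aT2 aS3 aM21 aM12 aT3 : ℝ)
    (e0 : g0 = 147 / 100 - u0 - v0)
    (e1 : g1 = 147 / 100 - u1 - v1)
    (e2 : g2 = 147 / 100 - u2 - v2)
    (e3 : g3 = 147 / 100 - u3 - v3)
    (e4 : g4 = 147 / 100 - u4 - v4)
    (ew : w = 147 / 100 - (u0 + u1 + u2 + u3 + u4))
    (h_aS1 : aS1 = u0 + u1 + u2 + u3 + u4)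
    (h_aT1 : aT1 = v0 + v1 + v2 + v3 + v4)
    (h_aS2 : aS2 = u0 ^ 2 + u1 ^ 2 + u2 ^ 2 + u3 ^ 2 + u4 ^ 2)
    (h_aM11 : aM11 = u0 * v0 + u1 * v1 + u2 * v2 + u3 * v3 + u4 * v4)
    (h_aT2 : aT2 = v0 ^ 2 + v1 ^ 2 + v2 ^ 2 + v3 ^ 2 + v4 ^ 2)
    (h_aS3 : aS3 = u0 ^ 3 + u1 ^ 3 + u2 ^ 3 + u3 ^ 3 + u4 ^ 3)
    (h_aM21 : aM21 = u0 ^ 2 * v0 + u1 ^ 2 * v1 + u2 ^ 2 * v2 + u3 ^ 2 * v3 + u4 ^ 2 * v4)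
    (h_aM12 : aM12 = u0 * v0 ^ 2 + u1 * v1 ^ 2 + u2 * v2 ^ 2 + u3 * v3 ^ 2 + u4 * v4 ^ 2)
    (h_aT3 : aT3 = v0 ^ 3 + v1 ^ 3 + v2 ^ 3 + v3 ^ 3 + v4 ^ 3) :
    u0 * g0 * (u1 + u2 + u3 + u4) + u1 * g1 * (u0 + u2 + u3 + u4) + u2 * g2 * (u0 + u1 + u3 +
      u4) + u3 * g3 * (u0 + u1 + u2 + u4) + u4 * g4 * (u0 + u1 + u2 + u3) =
      (147 / 100) * aS1 * aS1 + (-147 / 100) * aS2 + (-1) * aS1 * aS2 + (-1) * aS1 * aM11 + 1 *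
      aS3 + 1 * aM21 := by
  subst e0 e1 e2 e3 e4 ew h_aS1 h_aT1 h_aS2 h_aM11 h_aT2 h_aS3 h_aM21 h_aM12 h_aT3
  ring

theorem pos10 (u0 u1 u2 u3 u4 v0 v1 v2 v3 v4 g0 g1 g2 g3 g4 w : ℝ)
    (hu0 : 0 ≤ u0) (hu1 : 0 ≤ u1) (hu2 : 0 ≤ u2) (hu3 : 0 ≤ u3) (hu4 : 0 ≤ u4)
    (hv0 : 0 ≤ v0) (hv1 : 0 ≤ v1) (hv2 : 0 ≤ v2) (hv3 : 0 ≤ v3) (hv4 : 0 ≤ v4)
    (hg0 : 0 ≤ g0) (hg1 : 0 ≤ g1) (hg2 : 0 ≤ g2) (hg3 : 0 ≤ g3) (hg4 : 0 ≤ g4) (hw : 0 ≤ w) :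
    0 ≤ (u1 + u2 + u3 + u4) * (w - (3 / 2) * u0) ^ 2 + (u0 + u2 + u3 + u4) * (w - (3 / 2) * u1) ^ 2
      + (u0 + u1 + u3 + u4) * (w - (3 / 2) * u2) ^ 2 + (u0 + u1 + u2 + u4) * (w - (3 / 2) * u3) ^
      2 + (u0 + u1 + u2 + u3) * (w - (3 / 2) * u4) ^ 2 := by
  positivity

theorem idn10 (u0 u1 u2 u3 u4 v0 v1 v2 v3 v4 g0 g1 g2 g3 g4 w
    aS1 aT1 aS2 aM11 aT2 aS3 aM21 aM12 aT3 : ℝ)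
    (e0 : g0 = 147 / 100 - u0 - v0)
    (e1 : g1 = 147 / 100 - u1 - v1)
    (e2 : g2 = 147 / 100 - u2 - v2)
    (e3 : g3 = 147 / 100 - u3 - v3)
    (e4 : g4 = 147 / 100 - u4 - v4)
    (ew : w = 147 / 100 - (u0 + u1 + u2 + u3 + u4))
    (h_aS1 : aS1 = u0 + u1 + u2 + u3 + u4)
    (h_aT1 : aT1 = v0 + v1 + v2 + v3 + v4)
    (h_aS2 : aS2 = u0 ^ 2 + u1 ^ 2 + u2 ^ 2 + u3 ^ 2 + u4 ^ 2)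
    (h_aM11 : aM11 = u0 * v0 + u1 * v1 + u2 * v2 + u3 * v3 + u4 * v4)
    (h_aT2 : aT2 = v0 ^ 2 + v1 ^ 2 + v2 ^ 2 + v3 ^ 2 + v4 ^ 2)
    (h_aS3 : aS3 = u0 ^ 3 + u1 ^ 3 + u2 ^ 3 + u3 ^ 3 + u4 ^ 3)
    (h_aM21 : aM21 = u0 ^ 2 * v0 + u1 ^ 2 * v1 + u2 ^ 2 * v2 + u3 ^ 2 * v3 + u4 ^ 2 * v4)
    (h_aM12 : aM12 = u0 * v0 ^ 2 + u1 * v1 ^ 2 + u2 * v2 ^ 2 + u3 * v3 ^ 2 + u4 * v4 ^ 2)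
    (h_aT3 : aT3 = v0 ^ 3 + v1 ^ 3 + v2 ^ 3 + v3 ^ 3 + v4 ^ 3) :
    (u1 + u2 + u3 + u4) * (w - (3 / 2) * u0) ^ 2 + (u0 + u2 + u3 + u4) * (w - (3 / 2) * u1) ^ 2
      + (u0 + u1 + u3 + u4) * (w - (3 / 2) * u2) ^ 2 + (u0 + u1 + u2 + u4) * (w - (3 / 2) * u3) ^
      2 + (u0 + u1 + u2 + u3) * (w - (3 / 2) * u4) ^ 2 =
      (21609 / 2500) * aS1 + (-1617 / 100) * aS1 * aS1 + (441 / 100) * aS2 + 7 * aS1 * aS1 * aS1 +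
      (-3 / 4) * aS1 * aS2 + (-9 / 4) * aS3 := by
  subst e0 e1 e2 e3 e4 ew h_aS1 h_aT1 h_aS2 h_aM11 h_aT2 h_aS3 h_aM21 h_aM12 h_aT3
  ring

theorem pos11 (u0 u1 u2 u3 u4 v0 v1 v2 v3 v4 g0 g1 g2 g3 g4 w : ℝ)
    (hu0 : 0 ≤ u0) (hu1 : 0 ≤ u1) (hu2 : 0 ≤ u2) (hu3 : 0 ≤ u3) (hu4 : 0 ≤ u4)
    (hv0 : 0 ≤ v0) (hv1 : 0 ≤ v1) (hv2 : 0 ≤ v2) (hv3 : 0 ≤ v3) (hv4 : 0 ≤ v4)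
    (hg0 : 0 ≤ g0) (hg1 : 0 ≤ g1) (hg2 : 0 ≤ g2) (hg3 : 0 ≤ g3) (hg4 : 0 ≤ g4) (hw : 0 ≤ w) :
    0 ≤ (g1 + g2 + g3 + g4) * (u0 - (1 / 3) * v0) ^ 2 + (g0 + g2 + g3 + g4) * (u1 - (1 / 3) * v1) ^
      2 + (g0 + g1 + g3 + g4) * (u2 - (1 / 3) * v2) ^ 2 + (g0 + g1 + g2 + g4) * (u3 - (1 / 3) *
      v3) ^ 2 + (g0 + g1 + g2 + g3) * (u4 - (1 / 3) * v4) ^ 2 := by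
  positivity

theorem idn11 (u0 u1 u2 u3 u4 v0 v1 v2 v3 v4 g0 g1 g2 g3 g4 w
    aS1 aT1 aS2 aM11 aT2 aS3 aM21 aM12 aT3 : ℝ)
    (e0 : g0 = 147 / 100 - u0 - v0)
    (e1 : g1 = 147 / 100 - u1 - v1)
    (e2 : g2 = 147 / 100 - u2 - v2)
    (e3 : g3 = 147 / 100 - u3 - v3)
    (e4 : g4 = 147 / 100 - u4 - v4)
    (ew : w = 147 / 100 - (u0 + u1 + u2 + u3 + u4))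
    (h_aS1 : aS1 = u0 + u1 + u2 + u3 + u4)
    (h_aT1 : aT1 = v0 + v1 + v2 + v3 + v4)
    (h_aS2 : aS2 = u0 ^ 2 + u1 ^ 2 + u2 ^ 2 + u3 ^ 2 + u4 ^ 2)
    (h_aM11 : aM11 = u0 * v0 + u1 * v1 + u2 * v2 + u3 * v3 + u4 * v4)
    (h_aT2 : aT2 = v0 ^ 2 + v1 ^ 2 + v2 ^ 2 + v3 ^ 2 + v4 ^ 2)
    (h_aS3 : aS3 = u0 ^ 3 + u1 ^ 3 + u2 ^ 3 + u3 ^ 3 + u4 ^ 3)
    (h_aM21 : aM21 = u0 ^ 2 * v0 + u1 ^ 2 * v1 + u2 ^ 2 * v2 + u3 ^ 2 * v3 + u4 ^ 2 * v4)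
    (h_aM12 : aM12 = u0 * v0 ^ 2 + u1 * v1 ^ 2 + u2 * v2 ^ 2 + u3 * v3 ^ 2 + u4 * v4 ^ 2)
    (h_aT3 : aT3 = v0 ^ 3 + v1 ^ 3 + v2 ^ 3 + v3 ^ 3 + v4 ^ 3) :
    (g1 + g2 + g3 + g4) * (u0 - (1 / 3) * v0) ^ 2 + (g0 + g2 + g3 + g4) * (u1 - (1 / 3) * v1) ^
      2 + (g0 + g1 + g3 + g4) * (u2 - (1 / 3) * v2) ^ 2 + (g0 + g1 + g2 + g4) * (u3 - (1 / 3) *
      v3) ^ 2 + (g0 + g1 + g2 + g3) * (u4 - (1 / 3) * v4) ^ 2 =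
      (147 / 25) * aS2 + (-98 / 25) * aM11 + (49 / 75) * aT2 + (-1) * aS1 * aS2 + (2 / 3) * aS1 *
      aM11 + (-1 / 9) * aS1 * aT2 + (-1) * aT1 * aS2 + (2 / 3) * aT1 * aM11 + (-1 / 9) * aT1 * aT2
      + 1 * aS3 + (1 / 3) * aM21 + (-5 / 9) * aM12 + (1 / 9) * aT3 := by
  subst e0 e1 e2 e3 e4 ew h_aS1 h_aT1 h_aS2 h_aM11 h_aT2 h_aS3 h_aM21 h_aM12 h_aT3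
  ring

theorem pos12 (u0 u1 u2 u3 u4 v0 v1 v2 v3 v4 g0 g1 g2 g3 g4 w : ℝ)
    (hu0 : 0 ≤ u0) (hu1 : 0 ≤ u1) (hu2 : 0 ≤ u2) (hu3 : 0 ≤ u3) (hu4 : 0 ≤ u4)
    (hv0 : 0 ≤ v0) (hv1 : 0 ≤ v1) (hv2 : 0 ≤ v2) (hv3 : 0 ≤ v3) (hv4 : 0 ≤ v4)
    (hg0 : 0 ≤ g0) (hg1 : 0 ≤ g1) (hg2 : 0 ≤ g2) (hg3 : 0 ≤ g3) (hg4 : 0 ≤ g4) (hw : 0 ≤ w) :
    0 ≤ u0 * g0 * (v1 + v2 + v3 + v4) + u1 * g1 * (v0 + v2 + v3 + v4) + u2 * g2 * (v0 + v1 + v3 +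
      v4) + u3 * g3 * (v0 + v1 + v2 + v4) + u4 * g4 * (v0 + v1 + v2 + v3) := by
  positivity

theorem idn12 (u0 u1 u2 u3 u4 v0 v1 v2 v3 v4 g0 g1 g2 g3 g4 w
    aS1 aT1 aS2 aM11 aT2 aS3 aM21 aM12 aT3 : ℝ)
    (e0 : g0 = 147 / 100 - u0 - v0)
    (e1 : g1 = 147 / 100 - u1 - v1)
    (e2 : g2 = 147 / 100 - u2 - v2)
    (e3 : g3 = 147 / 100 - u3 - v3)
    (e4 : g4 = 147 / 100 - u4 - v4)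
    (ew : w = 147 / 100 - (u0 + u1 + u2 + u3 + u4))
    (h_aS1 : aS1 = u0 + u1 + u2 + u3 + u4)
    (h_aT1 : aT1 = v0 + v1 + v2 + v3 + v4)
    (h_aS2 : aS2 = u0 ^ 2 + u1 ^ 2 + u2 ^ 2 + u3 ^ 2 + u4 ^ 2)
    (h_aM11 : aM11 = u0 * v0 + u1 * v1 + u2 * v2 + u3 * v3 + u4 * v4)
    (h_aT2 : aT2 = v0 ^ 2 + v1 ^ 2 + v2 ^ 2 + v3 ^ 2 + v4 ^ 2)
    (h_aS3 : aS3 = u0 ^ 3 + u1 ^ 3 + u2 ^ 3 + u3 ^ 3 + u4 ^ 3)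
    (h_aM21 : aM21 = u0 ^ 2 * v0 + u1 ^ 2 * v1 + u2 ^ 2 * v2 + u3 ^ 2 * v3 + u4 ^ 2 * v4)
    (h_aM12 : aM12 = u0 * v0 ^ 2 + u1 * v1 ^ 2 + u2 * v2 ^ 2 + u3 * v3 ^ 2 + u4 * v4 ^ 2)
    (h_aT3 : aT3 = v0 ^ 3 + v1 ^ 3 + v2 ^ 3 + v3 ^ 3 + v4 ^ 3) :
    u0 * g0 * (v1 + v2 + v3 + v4) + u1 * g1 * (v0 + v2 + v3 + v4) + u2 * g2 * (v0 + v1 + v3 +
      v4) + u3 * g3 * (v0 + v1 + v2 + v4) + u4 * g4 * (v0 + v1 + v2 + v3) =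
      (147 / 100) * aS1 * aT1 + (-147 / 100) * aM11 + (-1) * aT1 * aS2 + (-1) * aT1 * aM11 + 1 *
      aM21 + 1 * aM12 := by
  subst e0 e1 e2 e3 e4 ew h_aS1 h_aT1 h_aS2 h_aM11 h_aT2 h_aS3 h_aM21 h_aM12 h_aT3
  ring

theorem pos13 (u0 u1 u2 u3 u4 v0 v1 v2 v3 v4 g0 g1 g2 g3 g4 w : ℝ)
    (hu0 : 0 ≤ u0) (hu1 : 0 ≤ u1) (hu2 : 0 ≤ u2) (hu3 : 0 ≤ u3) (hu4 : 0 ≤ u4)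
    (hv0 : 0 ≤ v0) (hv1 : 0 ≤ v1) (hv2 : 0 ≤ v2) (hv3 : 0 ≤ v3) (hv4 : 0 ≤ v4)
    (hg0 : 0 ≤ g0) (hg1 : 0 ≤ g1) (hg2 : 0 ≤ g2) (hg3 : 0 ≤ g3) (hg4 : 0 ≤ g4) (hw : 0 ≤ w) :
    0 ≤ (v0 + v1 + v2 + v3 + v4) * (w - (1 / 4) * (g0 + g1 + g2 + g3 + g4)) ^ 2 := by
  positivity

theorem idn13 (u0 u1 u2 u3 u4 v0 v1 v2 v3 v4 g0 g1 g2 g3 g4 w
    aS1 aT1 aS2 aM11 aT2 aS3 aM21 aM12 aT3 : ℝ)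
    (e0 : g0 = 147 / 100 - u0 - v0)
    (e1 : g1 = 147 / 100 - u1 - v1)
    (e2 : g2 = 147 / 100 - u2 - v2)
    (e3 : g3 = 147 / 100 - u3 - v3)
    (e4 : g4 = 147 / 100 - u4 - v4)
    (ew : w = 147 / 100 - (u0 + u1 + u2 + u3 + u4))
    (h_aS1 : aS1 = u0 + u1 + u2 + u3 + u4)
    (h_aT1 : aT1 = v0 + v1 + v2 + v3 + v4)
    (h_aS2 : aS2 = u0 ^ 2 + u1 ^ 2 + u2 ^ 2 + u3 ^ 2 + u4 ^ 2)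
    (h_aM11 : aM11 = u0 * v0 + u1 * v1 + u2 * v2 + u3 * v3 + u4 * v4)
    (h_aT2 : aT2 = v0 ^ 2 + v1 ^ 2 + v2 ^ 2 + v3 ^ 2 + v4 ^ 2)
    (h_aS3 : aS3 = u0 ^ 3 + u1 ^ 3 + u2 ^ 3 + u3 ^ 3 + u4 ^ 3)
    (h_aM21 : aM21 = u0 ^ 2 * v0 + u1 ^ 2 * v1 + u2 ^ 2 * v2 + u3 ^ 2 * v3 + u4 ^ 2 * v4)
    (h_aM12 : aM12 = u0 * v0 ^ 2 + u1 * v1 ^ 2 + u2 * v2 ^ 2 + u3 * v3 ^ 2 + u4 * v4 ^ 2)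
    (h_aT3 : aT3 = v0 ^ 3 + v1 ^ 3 + v2 ^ 3 + v3 ^ 3 + v4 ^ 3) :
    (v0 + v1 + v2 + v3 + v4) * (w - (1 / 4) * (g0 + g1 + g2 + g3 + g4)) ^ 2 =
      (21609 / 160000) * aT1 + (441 / 800) * aS1 * aT1 + (-147 / 800) * aT1 * aT1 + (9 / 16) * aS1
      * aS1 * aT1 + (-3 / 8) * aS1 * aT1 * aT1 + (1 / 16) * aT1 * aT1 * aT1 := by
  subst e0 e1 e2 e3 e4 ew h_aS1 h_aT1 h_aS2 h_aM11 h_aT2 h_aS3 h_aM21 h_aM12 h_aT3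
  ring

theorem pos14 (u0 u1 u2 u3 u4 v0 v1 v2 v3 v4 g0 g1 g2 g3 g4 w : ℝ)
    (hu0 : 0 ≤ u0) (hu1 : 0 ≤ u1) (hu2 : 0 ≤ u2) (hu3 : 0 ≤ u3) (hu4 : 0 ≤ u4)
    (hv0 : 0 ≤ v0) (hv1 : 0 ≤ v1) (hv2 : 0 ≤ v2) (hv3 : 0 ≤ v3) (hv4 : 0 ≤ v4)
    (hg0 : 0 ≤ g0) (hg1 : 0 ≤ g1) (hg2 : 0 ≤ g2) (hg3 : 0 ≤ g3) (hg4 : 0 ≤ g4) (hw : 0 ≤ w) :
    0 ≤ (u1 + u2 + u3 + u4) * (w - 2 * u0) ^ 2 + (u0 + u2 + u3 + u4) * (w - 2 * u1) ^ 2 + (u0 + u1 +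
      u3 + u4) * (w - 2 * u2) ^ 2 + (u0 + u1 + u2 + u4) * (w - 2 * u3) ^ 2 + (u0 + u1 + u2 + u3) *
      (w - 2 * u4) ^ 2 := by
  positivity

theorem idn14 (u0 u1 u2 u3 u4 v0 v1 v2 v3 v4 g0 g1 g2 g3 g4 w
    aS1 aT1 aS2 aM11 aT2 aS3 aM21 aM12 aT3 : ℝ)
    (e0 : g0 = 147 / 100 - u0 - v0)
    (e1 : g1 = 147 / 100 - u1 - v1)
    (e2 : g2 = 147 / 100 - u2 - v2)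
    (e3 : g3 = 147 / 100 - u3 - v3)
    (e4 : g4 = 147 / 100 - u4 - v4)
    (ew : w = 147 / 100 - (u0 + u1 + u2 + u3 + u4))
    (h_aS1 : aS1 = u0 + u1 + u2 + u3 + u4)
    (h_aT1 : aT1 = v0 + v1 + v2 + v3 + v4)
    (h_aS2 : aS2 = u0 ^ 2 + u1 ^ 2 + u2 ^ 2 + u3 ^ 2 + u4 ^ 2)
    (h_aM11 : aM11 = u0 * v0 + u1 * v1 + u2 * v2 + u3 * v3 + u4 * v4)
    (h_aT2 : aT2 = v0 ^ 2 + v1 ^ 2 + v2 ^ 2 + v3 ^ 2 + v4 ^ 2)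
    (h_aS3 : aS3 = u0 ^ 3 + u1 ^ 3 + u2 ^ 3 + u3 ^ 3 + u4 ^ 3)
    (h_aM21 : aM21 = u0 ^ 2 * v0 + u1 ^ 2 * v1 + u2 ^ 2 * v2 + u3 ^ 2 * v3 + u4 ^ 2 * v4)
    (h_aM12 : aM12 = u0 * v0 ^ 2 + u1 * v1 ^ 2 + u2 * v2 ^ 2 + u3 * v3 ^ 2 + u4 * v4 ^ 2)
    (h_aT3 : aT3 = v0 ^ 3 + v1 ^ 3 + v2 ^ 3 + v3 ^ 3 + v4 ^ 3) :
    (u1 + u2 + u3 + u4) * (w - 2 * u0) ^ 2 + (u0 + u2 + u3 + u4) * (w - 2 * u1) ^ 2 + (u0 + u1 +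
      u3 + u4) * (w - 2 * u2) ^ 2 + (u0 + u1 + u2 + u4) * (w - 2 * u3) ^ 2 + (u0 + u1 + u2 + u3) *
      (w - 2 * u4) ^ 2 =
      (21609 / 2500) * aS1 + (-441 / 25) * aS1 * aS1 + (147 / 25) * aS2 + 8 * aS1 * aS1 * aS1 +
      (-4) * aS3 := by
  subst e0 e1 e2 e3 e4 ew h_aS1 h_aT1 h_aS2 h_aM11 h_aT2 h_aS3 h_aM21 h_aM12 h_aT3
  ring

theorem pos15 (u0 u1 u2 u3 u4 v0 v1 v2 v3 v4 g0 g1 g2 g3 g4 w : ℝ)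
    (hu0 : 0 ≤ u0) (hu1 : 0 ≤ u1) (hu2 : 0 ≤ u2) (hu3 : 0 ≤ u3) (hu4 : 0 ≤ u4)
    (hv0 : 0 ≤ v0) (hv1 : 0 ≤ v1) (hv2 : 0 ≤ v2) (hv3 : 0 ≤ v3) (hv4 : 0 ≤ v4)
    (hg0 : 0 ≤ g0) (hg1 : 0 ≤ g1) (hg2 : 0 ≤ g2) (hg3 : 0 ≤ g3) (hg4 : 0 ≤ g4) (hw : 0 ≤ w) :
    0 ≤ u0 * (g0 - (1 / 3) * w) ^ 2 + u1 * (g1 - (1 / 3) * w) ^ 2 + u2 * (g2 - (1 / 3) * w) ^ 2 + u3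
      * (g3 - (1 / 3) * w) ^ 2 + u4 * (g4 - (1 / 3) * w) ^ 2 := by
  positivity

theorem idn15 (u0 u1 u2 u3 u4 v0 v1 v2 v3 v4 g0 g1 g2 g3 g4 w
    aS1 aT1 aS2 aM11 aT2 aS3 aM21 aM12 aT3 : ℝ)
    (e0 : g0 = 147 / 100 - u0 - v0)
    (e1 : g1 = 147 / 100 - u1 - v1)
    (e2 : g2 = 147 / 100 - u2 - v2)
    (e3 : g3 = 147 / 100 - u3 - v3)
    (e4 : g4 = 147 / 100 - u4 - v4)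
    (ew : w = 147 / 100 - (u0 + u1 + u2 + u3 + u4))
    (h_aS1 : aS1 = u0 + u1 + u2 + u3 + u4)
    (h_aT1 : aT1 = v0 + v1 + v2 + v3 + v4)
    (h_aS2 : aS2 = u0 ^ 2 + u1 ^ 2 + u2 ^ 2 + u3 ^ 2 + u4 ^ 2)
    (h_aM11 : aM11 = u0 * v0 + u1 * v1 + u2 * v2 + u3 * v3 + u4 * v4)
    (h_aT2 : aT2 = v0 ^ 2 + v1 ^ 2 + v2 ^ 2 + v3 ^ 2 + v4 ^ 2)
    (h_aS3 : aS3 = u0 ^ 3 + u1 ^ 3 + u2 ^ 3 + u3 ^ 3 + u4 ^ 3)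
    (h_aM21 : aM21 = u0 ^ 2 * v0 + u1 ^ 2 * v1 + u2 ^ 2 * v2 + u3 ^ 2 * v3 + u4 ^ 2 * v4)
    (h_aM12 : aM12 = u0 * v0 ^ 2 + u1 * v1 ^ 2 + u2 * v2 ^ 2 + u3 * v3 ^ 2 + u4 * v4 ^ 2)
    (h_aT3 : aT3 = v0 ^ 3 + v1 ^ 3 + v2 ^ 3 + v3 ^ 3 + v4 ^ 3) :
    u0 * (g0 - (1 / 3) * w) ^ 2 + u1 * (g1 - (1 / 3) * w) ^ 2 + u2 * (g2 - (1 / 3) * w) ^ 2 + u3
      * (g3 - (1 / 3) * w) ^ 2 + u4 * (g4 - (1 / 3) * w) ^ 2 =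
      (2401 / 2500) * aS1 + (49 / 75) * aS1 * aS1 + (-49 / 25) * aS2 + (-49 / 25) * aM11 + (1 / 9)
      * aS1 * aS1 * aS1 + (-2 / 3) * aS1 * aS2 + (-2 / 3) * aS1 * aM11 + 1 * aS3 + 2 * aM21 + 1 *
      aM12 := by
  subst e0 e1 e2 e3 e4 ew h_aS1 h_aT1 h_aS2 h_aM11 h_aT2 h_aS3 h_aM21 h_aM12 h_aT3
  ring

theorem pos16 (u0 u1 u2 u3 u4 v0 v1 v2 v3 v4 g0 g1 g2 g3 g4 w : ℝ)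
    (hu0 : 0 ≤ u0) (hu1 : 0 ≤ u1) (hu2 : 0 ≤ u2) (hu3 : 0 ≤ u3) (hu4 : 0 ≤ u4)
    (hv0 : 0 ≤ v0) (hv1 : 0 ≤ v1) (hv2 : 0 ≤ v2) (hv3 : 0 ≤ v3) (hv4 : 0 ≤ v4)
    (hg0 : 0 ≤ g0) (hg1 : 0 ≤ g1) (hg2 : 0 ≤ g2) (hg3 : 0 ≤ g3) (hg4 : 0 ≤ g4) (hw : 0 ≤ w) :
    0 ≤ w * ((v0 + v1 + v2 + v3 + v4) - 3 * (147 / 100)) ^ 2 := by
  positivity

theorem idn16 (u0 u1 u2 u3 u4 v0 v1 v2 v3 v4 g0 g1 g2 g3 g4 w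
    aS1 aT1 aS2 aM11 aT2 aS3 aM21 aM12 aT3 : ℝ)
    (e0 : g0 = 147 / 100 - u0 - v0)
    (e1 : g1 = 147 / 100 - u1 - v1)
    (e2 : g2 = 147 / 100 - u2 - v2)
    (e3 : g3 = 147 / 100 - u3 - v3)
    (e4 : g4 = 147 / 100 - u4 - v4)
    (ew : w = 147 / 100 - (u0 + u1 + u2 + u3 + u4))
    (h_aS1 : aS1 = u0 + u1 + u2 + u3 + u4)
    (h_aT1 : aT1 = v0 + v1 + v2 + v3 + v4)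
    (h_aS2 : aS2 = u0 ^ 2 + u1 ^ 2 + u2 ^ 2 + u3 ^ 2 + u4 ^ 2)
    (h_aM11 : aM11 = u0 * v0 + u1 * v1 + u2 * v2 + u3 * v3 + u4 * v4)
    (h_aT2 : aT2 = v0 ^ 2 + v1 ^ 2 + v2 ^ 2 + v3 ^ 2 + v4 ^ 2)
    (h_aS3 : aS3 = u0 ^ 3 + u1 ^ 3 + u2 ^ 3 + u3 ^ 3 + u4 ^ 3)
    (h_aM21 : aM21 = u0 ^ 2 * v0 + u1 ^ 2 * v1 + u2 ^ 2 * v2 + u3 ^ 2 * v3 + u4 ^ 2 * v4)
    (h_aM12 : aM12 = u0 * v0 ^ 2 + u1 * v1 ^ 2 + u2 * v2 ^ 2 + u3 * v3 ^ 2 + u4 * v4 ^ 2)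
    (h_aT3 : aT3 = v0 ^ 3 + v1 ^ 3 + v2 ^ 3 + v3 ^ 3 + v4 ^ 3) :
    w * ((v0 + v1 + v2 + v3 + v4) - 3 * (147 / 100)) ^ 2 =
      (28588707 / 1000000) + (-194481 / 10000) * aS1 + (-64827 / 5000) * aT1 + (441 / 50) * aS1 *
      aT1 + (147 / 100) * aT1 * aT1 + (-1) * aS1 * aT1 * aT1 := by
  subst e0 e1 e2 e3 e4 ew h_aS1 h_aT1 h_aS2 h_aM11 h_aT2 h_aS3 h_aM21 h_aM12 h_aT3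
  ring

theorem pos17 (u0 u1 u2 u3 u4 v0 v1 v2 v3 v4 g0 g1 g2 g3 g4 w : ℝ)
    (hu0 : 0 ≤ u0) (hu1 : 0 ≤ u1) (hu2 : 0 ≤ u2) (hu3 : 0 ≤ u3) (hu4 : 0 ≤ u4)
    (hv0 : 0 ≤ v0) (hv1 : 0 ≤ v1) (hv2 : 0 ≤ v2) (hv3 : 0 ≤ v3) (hv4 : 0 ≤ v4)
    (hg0 : 0 ≤ g0) (hg1 : 0 ≤ g1) (hg2 : 0 ≤ g2) (hg3 : 0 ≤ g3) (hg4 : 0 ≤ g4) (hw : 0 ≤ w) :
    0 ≤ (v0 + v1 + v2 + v3 + v4) * ((u0 + u1 + u2 + u3 + u4) - (1 / 4) * (v0 + v1 + v2 + v3 + v4)) ^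
      2 := by
  positivity

theorem idn17 (u0 u1 u2 u3 u4 v0 v1 v2 v3 v4 g0 g1 g2 g3 g4 w
    aS1 aT1 aS2 aM11 aT2 aS3 aM21 aM12 aT3 : ℝ)
    (e0 : g0 = 147 / 100 - u0 - v0)
    (e1 : g1 = 147 / 100 - u1 - v1)
    (e2 : g2 = 147 / 100 - u2 - v2)
    (e3 : g3 = 147 / 100 - u3 - v3)
    (e4 : g4 = 147 / 100 - u4 - v4)
    (ew : w = 147 / 100 - (u0 + u1 + u2 + u3 + u4))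
    (h_aS1 : aS1 = u0 + u1 + u2 + u3 + u4)
    (h_aT1 : aT1 = v0 + v1 + v2 + v3 + v4)
    (h_aS2 : aS2 = u0 ^ 2 + u1 ^ 2 + u2 ^ 2 + u3 ^ 2 + u4 ^ 2)
    (h_aM11 : aM11 = u0 * v0 + u1 * v1 + u2 * v2 + u3 * v3 + u4 * v4)
    (h_aT2 : aT2 = v0 ^ 2 + v1 ^ 2 + v2 ^ 2 + v3 ^ 2 + v4 ^ 2)
    (h_aS3 : aS3 = u0 ^ 3 + u1 ^ 3 + u2 ^ 3 + u3 ^ 3 + u4 ^ 3)
    (h_aM21 : aM21 = u0 ^ 2 * v0 + u1 ^ 2 * v1 + u2 ^ 2 * v2 + u3 ^ 2 * v3 + u4 ^ 2 * v4)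
    (h_aM12 : aM12 = u0 * v0 ^ 2 + u1 * v1 ^ 2 + u2 * v2 ^ 2 + u3 * v3 ^ 2 + u4 * v4 ^ 2)
    (h_aT3 : aT3 = v0 ^ 3 + v1 ^ 3 + v2 ^ 3 + v3 ^ 3 + v4 ^ 3) :
    (v0 + v1 + v2 + v3 + v4) * ((u0 + u1 + u2 + u3 + u4) - (1 / 4) * (v0 + v1 + v2 + v3 + v4)) ^
      2 =
      1 * aS1 * aS1 * aT1 + (-1 / 2) * aS1 * aT1 * aT1 + (1 / 16) * aT1 * aT1 * aT1 := by
  subst e0 e1 e2 e3 e4 ew h_aS1 h_aT1 h_aS2 h_aM11 h_aT2 h_aS3 h_aM21 h_aM12 h_aT3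
  ring

theorem pos18 (u0 u1 u2 u3 u4 v0 v1 v2 v3 v4 g0 g1 g2 g3 g4 w : ℝ)
    (hu0 : 0 ≤ u0) (hu1 : 0 ≤ u1) (hu2 : 0 ≤ u2) (hu3 : 0 ≤ u3) (hu4 : 0 ≤ u4)
    (hv0 : 0 ≤ v0) (hv1 : 0 ≤ v1) (hv2 : 0 ≤ v2) (hv3 : 0 ≤ v3) (hv4 : 0 ≤ v4)
    (hg0 : 0 ≤ g0) (hg1 : 0 ≤ g1) (hg2 : 0 ≤ g2) (hg3 : 0 ≤ g3) (hg4 : 0 ≤ g4) (hw : 0 ≤ w) :
    0 ≤ u0 * v0 * g0 + u1 * v1 * g1 + u2 * v2 * g2 + u3 * v3 * g3 + u4 * v4 * g4 := by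
  positivity

theorem idn18 (u0 u1 u2 u3 u4 v0 v1 v2 v3 v4 g0 g1 g2 g3 g4 w
    aS1 aT1 aS2 aM11 aT2 aS3 aM21 aM12 aT3 : ℝ)
    (e0 : g0 = 147 / 100 - u0 - v0)
    (e1 : g1 = 147 / 100 - u1 - v1)
    (e2 : g2 = 147 / 100 - u2 - v2)
    (e3 : g3 = 147 / 100 - u3 - v3)
    (e4 : g4 = 147 / 100 - u4 - v4)
    (ew : w = 147 / 100 - (u0 + u1 + u2 + u3 + u4))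
    (h_aS1 : aS1 = u0 + u1 + u2 + u3 + u4)
    (h_aT1 : aT1 = v0 + v1 + v2 + v3 + v4)
    (h_aS2 : aS2 = u0 ^ 2 + u1 ^ 2 + u2 ^ 2 + u3 ^ 2 + u4 ^ 2)
    (h_aM11 : aM11 = u0 * v0 + u1 * v1 + u2 * v2 + u3 * v3 + u4 * v4)
    (h_aT2 : aT2 = v0 ^ 2 + v1 ^ 2 + v2 ^ 2 + v3 ^ 2 + v4 ^ 2)
    (h_aS3 : aS3 = u0 ^ 3 + u1 ^ 3 + u2 ^ 3 + u3 ^ 3 + u4 ^ 3)
    (h_aM21 : aM21 = u0 ^ 2 * v0 + u1 ^ 2 * v1 + u2 ^ 2 * v2 + u3 ^ 2 * v3 + u4 ^ 2 * v4)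
    (h_aM12 : aM12 = u0 * v0 ^ 2 + u1 * v1 ^ 2 + u2 * v2 ^ 2 + u3 * v3 ^ 2 + u4 * v4 ^ 2)
    (h_aT3 : aT3 = v0 ^ 3 + v1 ^ 3 + v2 ^ 3 + v3 ^ 3 + v4 ^ 3) :
    u0 * v0 * g0 + u1 * v1 * g1 + u2 * v2 * g2 + u3 * v3 * g3 + u4 * v4 * g4 =
      (147 / 100) * aM11 + (-1) * aM21 + (-1) * aM12 := by
  subst e0 e1 e2 e3 e4 ew h_aS1 h_aT1 h_aS2 h_aM11 h_aT2 h_aS3 h_aM21 h_aM12 h_aT3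
  ring

theorem pos19 (u0 u1 u2 u3 u4 v0 v1 v2 v3 v4 g0 g1 g2 g3 g4 w : ℝ)
    (hu0 : 0 ≤ u0) (hu1 : 0 ≤ u1) (hu2 : 0 ≤ u2) (hu3 : 0 ≤ u3) (hu4 : 0 ≤ u4)
    (hv0 : 0 ≤ v0) (hv1 : 0 ≤ v1) (hv2 : 0 ≤ v2) (hv3 : 0 ≤ v3) (hv4 : 0 ≤ v4)
    (hg0 : 0 ≤ g0) (hg1 : 0 ≤ g1) (hg2 : 0 ≤ g2) (hg3 : 0 ≤ g3) (hg4 : 0 ≤ g4) (hw : 0 ≤ w) :
    0 ≤ g0 * (u0 + (1 / 2) * v0) ^ 2 + g1 * (u1 + (1 / 2) * v1) ^ 2 + g2 * (u2 + (1 / 2) * v2) ^ 2 +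
      g3 * (u3 + (1 / 2) * v3) ^ 2 + g4 * (u4 + (1 / 2) * v4) ^ 2 := by
  positivity

theorem idn19 (u0 u1 u2 u3 u4 v0 v1 v2 v3 v4 g0 g1 g2 g3 g4 w
    aS1 aT1 aS2 aM11 aT2 aS3 aM21 aM12 aT3 : ℝ)
    (e0 : g0 = 147 / 100 - u0 - v0)
    (e1 : g1 = 147 / 100 - u1 - v1)
    (e2 : g2 = 147 / 100 - u2 - v2)
    (e3 : g3 = 147 / 100 - u3 - v3)
    (e4 : g4 = 147 / 100 - u4 - v4)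
    (ew : w = 147 / 100 - (u0 + u1 + u2 + u3 + u4))
    (h_aS1 : aS1 = u0 + u1 + u2 + u3 + u4)
    (h_aT1 : aT1 = v0 + v1 + v2 + v3 + v4)
    (h_aS2 : aS2 = u0 ^ 2 + u1 ^ 2 + u2 ^ 2 + u3 ^ 2 + u4 ^ 2)
    (h_aM11 : aM11 = u0 * v0 + u1 * v1 + u2 * v2 + u3 * v3 + u4 * v4)
    (h_aT2 : aT2 = v0 ^ 2 + v1 ^ 2 + v2 ^ 2 + v3 ^ 2 + v4 ^ 2)
    (h_aS3 : aS3 = u0 ^ 3 + u1 ^ 3 + u2 ^ 3 + u3 ^ 3 + u4 ^ 3)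
    (h_aM21 : aM21 = u0 ^ 2 * v0 + u1 ^ 2 * v1 + u2 ^ 2 * v2 + u3 ^ 2 * v3 + u4 ^ 2 * v4)
    (h_aM12 : aM12 = u0 * v0 ^ 2 + u1 * v1 ^ 2 + u2 * v2 ^ 2 + u3 * v3 ^ 2 + u4 * v4 ^ 2)
    (h_aT3 : aT3 = v0 ^ 3 + v1 ^ 3 + v2 ^ 3 + v3 ^ 3 + v4 ^ 3) :
    g0 * (u0 + (1 / 2) * v0) ^ 2 + g1 * (u1 + (1 / 2) * v1) ^ 2 + g2 * (u2 + (1 / 2) * v2) ^ 2 +
      g3 * (u3 + (1 / 2) * v3) ^ 2 + g4 * (u4 + (1 / 2) * v4) ^ 2 =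
      (147 / 100) * aS2 + (147 / 100) * aM11 + (147 / 400) * aT2 + (-1) * aS3 + (-2) * aM21 + (-5
      / 4) * aM12 + (-1 / 4) * aT3 := by
  subst e0 e1 e2 e3 e4 ew h_aS1 h_aT1 h_aS2 h_aM11 h_aT2 h_aS3 h_aM21 h_aM12 h_aT3
  ring

theorem pos20 (u0 u1 u2 u3 u4 v0 v1 v2 v3 v4 g0 g1 g2 g3 g4 w : ℝ)
    (hu0 : 0 ≤ u0) (hu1 : 0 ≤ u1) (hu2 : 0 ≤ u2) (hu3 : 0 ≤ u3) (hu4 : 0 ≤ u4)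
    (hv0 : 0 ≤ v0) (hv1 : 0 ≤ v1) (hv2 : 0 ≤ v2) (hv3 : 0 ≤ v3) (hv4 : 0 ≤ v4)
    (hg0 : 0 ≤ g0) (hg1 : 0 ≤ g1) (hg2 : 0 ≤ g2) (hg3 : 0 ≤ g3) (hg4 : 0 ≤ g4) (hw : 0 ≤ w) :
    0 ≤ (v0 + v1 + v2 + v3 + v4) * ((u0 + u1 + u2 + u3 + u4) - (1 / 5) * (v0 + v1 + v2 + v3 + v4)) ^
      2 := by
  positivity

theorem idn20 (u0 u1 u2 u3 u4 v0 v1 v2 v3 v4 g0 g1 g2 g3 g4 w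
    aS1 aT1 aS2 aM11 aT2 aS3 aM21 aM12 aT3 : ℝ)
    (e0 : g0 = 147 / 100 - u0 - v0)
    (e1 : g1 = 147 / 100 - u1 - v1)
    (e2 : g2 = 147 / 100 - u2 - v2)
    (e3 : g3 = 147 / 100 - u3 - v3)
    (e4 : g4 = 147 / 100 - u4 - v4)
    (ew : w = 147 / 100 - (u0 + u1 + u2 + u3 + u4))
    (h_aS1 : aS1 = u0 + u1 + u2 + u3 + u4)
    (h_aT1 : aT1 = v0 + v1 + v2 + v3 + v4)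
    (h_aS2 : aS2 = u0 ^ 2 + u1 ^ 2 + u2 ^ 2 + u3 ^ 2 + u4 ^ 2)
    (h_aM11 : aM11 = u0 * v0 + u1 * v1 + u2 * v2 + u3 * v3 + u4 * v4)
    (h_aT2 : aT2 = v0 ^ 2 + v1 ^ 2 + v2 ^ 2 + v3 ^ 2 + v4 ^ 2)
    (h_aS3 : aS3 = u0 ^ 3 + u1 ^ 3 + u2 ^ 3 + u3 ^ 3 + u4 ^ 3)
    (h_aM21 : aM21 = u0 ^ 2 * v0 + u1 ^ 2 * v1 + u2 ^ 2 * v2 + u3 ^ 2 * v3 + u4 ^ 2 * v4)
    (h_aM12 : aM12 = u0 * v0 ^ 2 + u1 * v1 ^ 2 + u2 * v2 ^ 2 + u3 * v3 ^ 2 + u4 * v4 ^ 2)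
    (h_aT3 : aT3 = v0 ^ 3 + v1 ^ 3 + v2 ^ 3 + v3 ^ 3 + v4 ^ 3) :
    (v0 + v1 + v2 + v3 + v4) * ((u0 + u1 + u2 + u3 + u4) - (1 / 5) * (v0 + v1 + v2 + v3 + v4)) ^
      2 =
      1 * aS1 * aS1 * aT1 + (-2 / 5) * aS1 * aT1 * aT1 + (1 / 25) * aT1 * aT1 * aT1 := by
  subst e0 e1 e2 e3 e4 ew h_aS1 h_aT1 h_aS2 h_aM11 h_aT2 h_aS3 h_aM21 h_aM12 h_aT3
  ring

theorem pos21 (u0 u1 u2 u3 u4 v0 v1 v2 v3 v4 g0 g1 g2 g3 g4 w : ℝ)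
    (hu0 : 0 ≤ u0) (hu1 : 0 ≤ u1) (hu2 : 0 ≤ u2) (hu3 : 0 ≤ u3) (hu4 : 0 ≤ u4)
    (hv0 : 0 ≤ v0) (hv1 : 0 ≤ v1) (hv2 : 0 ≤ v2) (hv3 : 0 ≤ v3) (hv4 : 0 ≤ v4)
    (hg0 : 0 ≤ g0) (hg1 : 0 ≤ g1) (hg2 : 0 ≤ g2) (hg3 : 0 ≤ g3) (hg4 : 0 ≤ g4) (hw : 0 ≤ w) :
    0 ≤ w * (w - (1 / 4) * (g0 + g1 + g2 + g3 + g4)) ^ 2 := by
  positivity

theorem idn21 (u0 u1 u2 u3 u4 v0 v1 v2 v3 v4 g0 g1 g2 g3 g4 w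
    aS1 aT1 aS2 aM11 aT2 aS3 aM21 aM12 aT3 : ℝ)
    (e0 : g0 = 147 / 100 - u0 - v0)
    (e1 : g1 = 147 / 100 - u1 - v1)
    (e2 : g2 = 147 / 100 - u2 - v2)
    (e3 : g3 = 147 / 100 - u3 - v3)
    (e4 : g4 = 147 / 100 - u4 - v4)
    (ew : w = 147 / 100 - (u0 + u1 + u2 + u3 + u4))
    (h_aS1 : aS1 = u0 + u1 + u2 + u3 + u4)
    (h_aT1 : aT1 = v0 + v1 + v2 + v3 + v4)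
    (h_aS2 : aS2 = u0 ^ 2 + u1 ^ 2 + u2 ^ 2 + u3 ^ 2 + u4 ^ 2)
    (h_aM11 : aM11 = u0 * v0 + u1 * v1 + u2 * v2 + u3 * v3 + u4 * v4)
    (h_aT2 : aT2 = v0 ^ 2 + v1 ^ 2 + v2 ^ 2 + v3 ^ 2 + v4 ^ 2)
    (h_aS3 : aS3 = u0 ^ 3 + u1 ^ 3 + u2 ^ 3 + u3 ^ 3 + u4 ^ 3)
    (h_aM21 : aM21 = u0 ^ 2 * v0 + u1 ^ 2 * v1 + u2 ^ 2 * v2 + u3 ^ 2 * v3 + u4 ^ 2 * v4)
    (h_aM12 : aM12 = u0 * v0 ^ 2 + u1 * v1 ^ 2 + u2 * v2 ^ 2 + u3 * v3 ^ 2 + u4 * v4 ^ 2)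
    (h_aT3 : aT3 = v0 ^ 3 + v1 ^ 3 + v2 ^ 3 + v3 ^ 3 + v4 ^ 3) :
    w * (w - (1 / 4) * (g0 + g1 + g2 + g3 + g4)) ^ 2 =
      (3176523 / 16000000) + (21609 / 32000) * aS1 + (-21609 / 80000) * aT1 + (441 / 1600) * aS1 *
      aS1 + (-147 / 400) * aS1 * aT1 + (147 / 1600) * aT1 * aT1 + (-9 / 16) * aS1 * aS1 * aS1 + (3
      / 8) * aS1 * aS1 * aT1 + (-1 / 16) * aS1 * aT1 * aT1 := by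
  subst e0 e1 e2 e3 e4 ew h_aS1 h_aT1 h_aS2 h_aM11 h_aT2 h_aS3 h_aM21 h_aM12 h_aT3
  ring

theorem pos22 (u0 u1 u2 u3 u4 v0 v1 v2 v3 v4 g0 g1 g2 g3 g4 w : ℝ)
    (hu0 : 0 ≤ u0) (hu1 : 0 ≤ u1) (hu2 : 0 ≤ u2) (hu3 : 0 ≤ u3) (hu4 : 0 ≤ u4)
    (hv0 : 0 ≤ v0) (hv1 : 0 ≤ v1) (hv2 : 0 ≤ v2) (hv3 : 0 ≤ v3) (hv4 : 0 ≤ v4)
    (hg0 : 0 ≤ g0) (hg1 : 0 ≤ g1) (hg2 : 0 ≤ g2) (hg3 : 0 ≤ g3) (hg4 : 0 ≤ g4) (hw : 0 ≤ w) :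
    0 ≤ v0 * (v0 - (1 / 4) * (v0 + v1 + v2 + v3 + v4)) ^ 2 + v1 * (v1 - (1 / 4) * (v0 + v1 + v2 + v3
      + v4)) ^ 2 + v2 * (v2 - (1 / 4) * (v0 + v1 + v2 + v3 + v4)) ^ 2 + v3 * (v3 - (1 / 4) * (v0 +
      v1 + v2 + v3 + v4)) ^ 2 + v4 * (v4 - (1 / 4) * (v0 + v1 + v2 + v3 + v4)) ^ 2 := by
  positivity

theorem idn22 (u0 u1 u2 u3 u4 v0 v1 v2 v3 v4 g0 g1 g2 g3 g4 w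
    aS1 aT1 aS2 aM11 aT2 aS3 aM21 aM12 aT3 : ℝ)
    (e0 : g0 = 147 / 100 - u0 - v0)
    (e1 : g1 = 147 / 100 - u1 - v1)
    (e2 : g2 = 147 / 100 - u2 - v2)
    (e3 : g3 = 147 / 100 - u3 - v3)
    (e4 : g4 = 147 / 100 - u4 - v4)
    (ew : w = 147 / 100 - (u0 + u1 + u2 + u3 + u4))
    (h_aS1 : aS1 = u0 + u1 + u2 + u3 + u4)
    (h_aT1 : aT1 = v0 + v1 + v2 + v3 + v4)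
    (h_aS2 : aS2 = u0 ^ 2 + u1 ^ 2 + u2 ^ 2 + u3 ^ 2 + u4 ^ 2)
    (h_aM11 : aM11 = u0 * v0 + u1 * v1 + u2 * v2 + u3 * v3 + u4 * v4)
    (h_aT2 : aT2 = v0 ^ 2 + v1 ^ 2 + v2 ^ 2 + v3 ^ 2 + v4 ^ 2)
    (h_aS3 : aS3 = u0 ^ 3 + u1 ^ 3 + u2 ^ 3 + u3 ^ 3 + u4 ^ 3)
    (h_aM21 : aM21 = u0 ^ 2 * v0 + u1 ^ 2 * v1 + u2 ^ 2 * v2 + u3 ^ 2 * v3 + u4 ^ 2 * v4)
    (h_aM12 : aM12 = u0 * v0 ^ 2 + u1 * v1 ^ 2 + u2 * v2 ^ 2 + u3 * v3 ^ 2 + u4 * v4 ^ 2)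
    (h_aT3 : aT3 = v0 ^ 3 + v1 ^ 3 + v2 ^ 3 + v3 ^ 3 + v4 ^ 3) :
    v0 * (v0 - (1 / 4) * (v0 + v1 + v2 + v3 + v4)) ^ 2 + v1 * (v1 - (1 / 4) * (v0 + v1 + v2 + v3
      + v4)) ^ 2 + v2 * (v2 - (1 / 4) * (v0 + v1 + v2 + v3 + v4)) ^ 2 + v3 * (v3 - (1 / 4) * (v0 +
      v1 + v2 + v3 + v4)) ^ 2 + v4 * (v4 - (1 / 4) * (v0 + v1 + v2 + v3 + v4)) ^ 2 =
      (1 / 16) * aT1 * aT1 * aT1 + (-1 / 2) * aT1 * aT2 + 1 * aT3 := by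
  subst e0 e1 e2 e3 e4 ew h_aS1 h_aT1 h_aS2 h_aM11 h_aT2 h_aS3 h_aM21 h_aM12 h_aT3
  ring

theorem idF (u0 u1 u2 u3 u4 v0 v1 v2 v3 v4 aS1 aT1 aS2 aM11 aT2 aS3 aM21 aM12 aT3 : ℝ)
    (h_aS1 : aS1 = u0 + u1 + u2 + u3 + u4)
    (h_aT1 : aT1 = v0 + v1 + v2 + v3 + v4)
    (h_aS2 : aS2 = u0 ^ 2 + u1 ^ 2 + u2 ^ 2 + u3 ^ 2 + u4 ^ 2)
    (h_aM11 : aM11 = u0 * v0 + u1 * v1 + u2 * v2 + u3 * v3 + u4 * v4)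
    (h_aT2 : aT2 = v0 ^ 2 + v1 ^ 2 + v2 ^ 2 + v3 ^ 2 + v4 ^ 2)
    (h_aS3 : aS3 = u0 ^ 3 + u1 ^ 3 + u2 ^ 3 + u3 ^ 3 + u4 ^ 3)
    (h_aM21 : aM21 = u0 ^ 2 * v0 + u1 ^ 2 * v1 + u2 ^ 2 * v2 + u3 ^ 2 * v3 + u4 ^ 2 * v4)
    (h_aM12 : aM12 = u0 * v0 ^ 2 + u1 * v1 ^ 2 + u2 * v2 ^ 2 + u3 * v3 ^ 2 + u4 * v4 ^ 2)
    (h_aT3 : aT3 = v0 ^ 3 + v1 ^ 3 + v2 ^ 3 + v3 ^ 3 + v4 ^ 3) :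
    (16 / 27) * (((1 - u0) ^ 3 + (1 - u1) ^ 3 + (1 - u2) ^ 3 + (1 - u3) ^ 3 + (1 - u4) ^ 3)) +
      (-32 / 135) * ((((1 - u0) + (1 - u1) + (1 - u2) + (1 - u3) + (1 - u4)) ^ 2 - ((1 - u0) ^ 2 +
      (1 - u1) ^ 2 + (1 - u2) ^ 2 + (1 - u3) ^ 2 + (1 - u4) ^ 2) - (v0 + v1 + v2 + v3 + v4) + 2 *
      (u0 * v0 + u1 * v1 + u2 * v2 + u3 * v3 + u4 * v4))) + (-259 / 27000) * ((((1 - u0) + (1 -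
      u1) + (1 - u2) + (1 - u3) + (1 - u4)) + ((5 - u0 - v0) + (5 - u1 - v1) + (5 - u2 - v2) + (5
      - u3 - v3) + (5 - u4 - v4))) ^ 3) + (21 / 100) * ((((1 - u0) + (1 - u1) + (1 - u2) + (1 -
      u3) + (1 - u4)) + ((5 - u0 - v0) + (5 - u1 - v1) + (5 - u2 - v2) + (5 - u3 - v3) + (5 - u4 -
      v4))) ^ 2 * ((1 - u0) + (1 - u1) + (1 - u2) + (1 - u3) + (1 - u4))) + (-4841 / 3375) * ((((1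
      - u0) + (1 - u1) + (1 - u2) + (1 - u3) + (1 - u4)) + ((5 - u0 - v0) + (5 - u1 - v1) + (5 -
      u2 - v2) + (5 - u3 - v3) + (5 - u4 - v4))) * ((1 - u0) + (1 - u1) + (1 - u2) + (1 - u3) + (1
      - u4)) ^ 2) + (76 / 27) * (((1 - u0) + (1 - u1) + (1 - u2) + (1 - u3) + (1 - u4)) ^ 3) + (2
      / 15) * ((((1 - u0) + (1 - u1) + (1 - u2) + (1 - u3) + (1 - u4)) + ((5 - u0 - v0) + (5 - u1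
      - v1) + (5 - u2 - v2) + (5 - u3 - v3) + (5 - u4 - v4))) * ((1 - u0) ^ 2 + (1 - u1) ^ 2 + (1
      - u2) ^ 2 + (1 - u3) ^ 2 + (1 - u4) ^ 2)) + (-21 / 250) * ((((1 - u0) + (1 - u1) + (1 - u2)
      + (1 - u3) + (1 - u4)) + ((5 - u0 - v0) + (5 - u1 - v1) + (5 - u2 - v2) + (5 - u3 - v3) + (5
      - u4 - v4))) * ((1 - u0) * (5 - u0 - v0) + (1 - u1) * (5 - u1 - v1) + (1 - u2) * (5 - u2 -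
      v2) + (1 - u3) * (5 - u3 - v3) + (1 - u4) * (5 - u4 - v4))) + (124 / 135) * (((1 - u0) + (1
      - u1) + (1 - u2) + (1 - u3) + (1 - u4)) * ((1 - u0) * (5 - u0 - v0) + (1 - u1) * (5 - u1 -
      v1) + (1 - u2) * (5 - u2 - v2) + (1 - u3) * (5 - u3 - v3) + (1 - u4) * (5 - u4 - v4))) +
      (-56 / 45) * (((1 - u0) ^ 2 * (5 - u0 - v0) + (1 - u1) ^ 2 * (5 - u1 - v1) + (1 - u2) ^ 2 *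
      (5 - u2 - v2) + (1 - u3) ^ 2 * (5 - u3 - v3) + (1 - u4) ^ 2 * (5 - u4 - v4))) =
      1 + (671 / 675) * aS1 + (-269 / 675) * aT1 + (1406 / 1125) * aS1 * aS1 + (-1633 / 3375) *
      aS1 * aT1 + (77 / 750) * aT1 * aT1 + (-421 / 675) * aS2 + (-601 / 675) * aM11 + (-266 / 375)
      * aS1 * aS1 * aS1 + (4789 / 6750) * aS1 * aS1 * aT1 + (-343 / 2250) * aS1 * aT1 * aT1 + (259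
      / 27000) * aT1 * aT1 * aT1 + (-3433 / 3375) * aS1 * aS2 + (-2533 / 3375) * aS1 * aM11 + (-37
      / 750) * aT1 * aS2 + (21 / 250) * aT1 * aM11 + (88 / 135) * aS3 + (56 / 45) * aM21 := by
  subst h_aS1 h_aT1 h_aS2 h_aM11 h_aT2 h_aS3 h_aM21 h_aM12 h_aT3
  ring

theorem core (u0 u1 u2 u3 u4 v0 v1 v2 v3 v4 g0 g1 g2 g3 g4 w : ℝ)
    (hu0 : 0 ≤ u0) (hu1 : 0 ≤ u1) (hu2 : 0 ≤ u2) (hu3 : 0 ≤ u3) (hu4 : 0 ≤ u4)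
    (hv0 : 0 ≤ v0) (hv1 : 0 ≤ v1) (hv2 : 0 ≤ v2) (hv3 : 0 ≤ v3) (hv4 : 0 ≤ v4)
    (hg0 : 0 ≤ g0) (hg1 : 0 ≤ g1) (hg2 : 0 ≤ g2) (hg3 : 0 ≤ g3) (hg4 : 0 ≤ g4) (hw : 0 ≤ w)
    (e0 : g0 = 147 / 100 - u0 - v0)
    (e1 : g1 = 147 / 100 - u1 - v1)
    (e2 : g2 = 147 / 100 - u2 - v2)
    (e3 : g3 = 147 / 100 - u3 - v3)
    (e4 : g4 = 147 / 100 - u4 - v4)
    (ew : w = 147 / 100 - (u0 + u1 + u2 + u3 + u4)) :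
    1 / 100 ≤ (16 / 27) * (((1 - u0) ^ 3 + (1 - u1) ^ 3 + (1 - u2) ^ 3 + (1 - u3) ^ 3 + (1 - u4) ^ 3)) +
      (-32 / 135) * ((((1 - u0) + (1 - u1) + (1 - u2) + (1 - u3) + (1 - u4)) ^ 2 - ((1 - u0) ^ 2 +
      (1 - u1) ^ 2 + (1 - u2) ^ 2 + (1 - u3) ^ 2 + (1 - u4) ^ 2) - (v0 + v1 + v2 + v3 + v4) + 2 *
      (u0 * v0 + u1 * v1 + u2 * v2 + u3 * v3 + u4 * v4))) + (-259 / 27000) * ((((1 - u0) + (1 -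
      u1) + (1 - u2) + (1 - u3) + (1 - u4)) + ((5 - u0 - v0) + (5 - u1 - v1) + (5 - u2 - v2) + (5
      - u3 - v3) + (5 - u4 - v4))) ^ 3) + (21 / 100) * ((((1 - u0) + (1 - u1) + (1 - u2) + (1 -
      u3) + (1 - u4)) + ((5 - u0 - v0) + (5 - u1 - v1) + (5 - u2 - v2) + (5 - u3 - v3) + (5 - u4 -
      v4))) ^ 2 * ((1 - u0) + (1 - u1) + (1 - u2) + (1 - u3) + (1 - u4))) + (-4841 / 3375) * ((((1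
      - u0) + (1 - u1) + (1 - u2) + (1 - u3) + (1 - u4)) + ((5 - u0 - v0) + (5 - u1 - v1) + (5 -
      u2 - v2) + (5 - u3 - v3) + (5 - u4 - v4))) * ((1 - u0) + (1 - u1) + (1 - u2) + (1 - u3) + (1
      - u4)) ^ 2) + (76 / 27) * (((1 - u0) + (1 - u1) + (1 - u2) + (1 - u3) + (1 - u4)) ^ 3) + (2
      / 15) * ((((1 - u0) + (1 - u1) + (1 - u2) + (1 - u3) + (1 - u4)) + ((5 - u0 - v0) + (5 - u1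
      - v1) + (5 - u2 - v2) + (5 - u3 - v3) + (5 - u4 - v4))) * ((1 - u0) ^ 2 + (1 - u1) ^ 2 + (1
      - u2) ^ 2 + (1 - u3) ^ 2 + (1 - u4) ^ 2)) + (-21 / 250) * ((((1 - u0) + (1 - u1) + (1 - u2)
      + (1 - u3) + (1 - u4)) + ((5 - u0 - v0) + (5 - u1 - v1) + (5 - u2 - v2) + (5 - u3 - v3) + (5
      - u4 - v4))) * ((1 - u0) * (5 - u0 - v0) + (1 - u1) * (5 - u1 - v1) + (1 - u2) * (5 - u2 -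
      v2) + (1 - u3) * (5 - u3 - v3) + (1 - u4) * (5 - u4 - v4))) + (124 / 135) * (((1 - u0) + (1
      - u1) + (1 - u2) + (1 - u3) + (1 - u4)) * ((1 - u0) * (5 - u0 - v0) + (1 - u1) * (5 - u1 -
      v1) + (1 - u2) * (5 - u2 - v2) + (1 - u3) * (5 - u3 - v3) + (1 - u4) * (5 - u4 - v4))) +
      (-56 / 45) * (((1 - u0) ^ 2 * (5 - u0 - v0) + (1 - u1) ^ 2 * (5 - u1 - v1) + (1 - u2) ^ 2 *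
      (5 - u2 - v2) + (1 - u3) ^ 2 * (5 - u3 - v3) + (1 - u4) ^ 2 * (5 - u4 - v4))) := by
  obtain ⟨aS1, h_aS1⟩ : ∃ x, x = u0 + u1 + u2 + u3 + u4 := ⟨_, rfl⟩
  obtain ⟨aT1, h_aT1⟩ : ∃ x, x = v0 + v1 + v2 + v3 + v4 := ⟨_, rfl⟩
  obtain ⟨aS2, h_aS2⟩ : ∃ x, x = u0 ^ 2 + u1 ^ 2 + u2 ^ 2 + u3 ^ 2 + u4 ^ 2 := ⟨_, rfl⟩
  obtain ⟨aM11, h_aM11⟩ : ∃ x, x = u0 * v0 + u1 * v1 + u2 * v2 + u3 * v3 + u4 * v4 := ⟨_, rfl⟩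
  obtain ⟨aT2, h_aT2⟩ : ∃ x, x = v0 ^ 2 + v1 ^ 2 + v2 ^ 2 + v3 ^ 2 + v4 ^ 2 := ⟨_, rfl⟩
  obtain ⟨aS3, h_aS3⟩ : ∃ x, x = u0 ^ 3 + u1 ^ 3 + u2 ^ 3 + u3 ^ 3 + u4 ^ 3 := ⟨_, rfl⟩
  obtain ⟨aM21, h_aM21⟩ : ∃ x, x = u0 ^ 2 * v0 + u1 ^ 2 * v1 + u2 ^ 2 * v2 + u3 ^ 2 * v3 + u4 ^ 2 * v4 := ⟨_, rfl⟩
  obtain ⟨aM12, h_aM12⟩ : ∃ x, x = u0 * v0 ^ 2 + u1 * v1 ^ 2 + u2 * v2 ^ 2 + u3 * v3 ^ 2 + u4 * v4 ^ 2 := ⟨_, rfl⟩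
  obtain ⟨aT3, h_aT3⟩ : ∃ x, x = v0 ^ 3 + v1 ^ 3 + v2 ^ 3 + v3 ^ 3 + v4 ^ 3 := ⟨_, rfl⟩
  have p0 := pos0 u0 u1 u2 u3 u4 v0 v1 v2 v3 v4 g0 g1 g2 g3 g4 w hu0 hu1 hu2 hu3 hu4 hv0 hv1 hv2 hv3 hv4 hg0
      hg1 hg2 hg3 hg4 hw
  rw [idn0 u0 u1 u2 u3 u4 v0 v1 v2 v3 v4 g0 g1 g2 g3 g4 w aS1 aT1 aS2 aM11 aT2 aS3 aM21 aM12 aT3 e0 e1
      e2 e3 e4 ew h_aS1 h_aT1 h_aS2 h_aM11 h_aT2 h_aS3 h_aM21 h_aM12 h_aT3] at p0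
  have p1 := pos1 u0 u1 u2 u3 u4 v0 v1 v2 v3 v4 g0 g1 g2 g3 g4 w hu0 hu1 hu2 hu3 hu4 hv0 hv1 hv2 hv3 hv4 hg0
      hg1 hg2 hg3 hg4 hw
  rw [idn1 u0 u1 u2 u3 u4 v0 v1 v2 v3 v4 g0 g1 g2 g3 g4 w aS1 aT1 aS2 aM11 aT2 aS3 aM21 aM12 aT3 e0 e1
      e2 e3 e4 ew h_aS1 h_aT1 h_aS2 h_aM11 h_aT2 h_aS3 h_aM21 h_aM12 h_aT3] at p1
  have p2 := pos2 u0 u1 u2 u3 u4 v0 v1 v2 v3 v4 g0 g1 g2 g3 g4 w hu0 hu1 hu2 hu3 hu4 hv0 hv1 hv2 hv3 hv4 hg0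
      hg1 hg2 hg3 hg4 hw
  rw [idn2 u0 u1 u2 u3 u4 v0 v1 v2 v3 v4 g0 g1 g2 g3 g4 w aS1 aT1 aS2 aM11 aT2 aS3 aM21 aM12 aT3 e0 e1
      e2 e3 e4 ew h_aS1 h_aT1 h_aS2 h_aM11 h_aT2 h_aS3 h_aM21 h_aM12 h_aT3] at p2
  have p3 := pos3 u0 u1 u2 u3 u4 v0 v1 v2 v3 v4 g0 g1 g2 g3 g4 w hu0 hu1 hu2 hu3 hu4 hv0 hv1 hv2 hv3 hv4 hg0
      hg1 hg2 hg3 hg4 hw
  rw [idn3 u0 u1 u2 u3 u4 v0 v1 v2 v3 v4 g0 g1 g2 g3 g4 w aS1 aT1 aS2 aM11 aT2 aS3 aM21 aM12 aT3 e0 e1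
      e2 e3 e4 ew h_aS1 h_aT1 h_aS2 h_aM11 h_aT2 h_aS3 h_aM21 h_aM12 h_aT3] at p3
  have p4 := pos4 u0 u1 u2 u3 u4 v0 v1 v2 v3 v4 g0 g1 g2 g3 g4 w hu0 hu1 hu2 hu3 hu4 hv0 hv1 hv2 hv3 hv4 hg0
      hg1 hg2 hg3 hg4 hw
  rw [idn4 u0 u1 u2 u3 u4 v0 v1 v2 v3 v4 g0 g1 g2 g3 g4 w aS1 aT1 aS2 aM11 aT2 aS3 aM21 aM12 aT3 e0 e1
      e2 e3 e4 ew h_aS1 h_aT1 h_aS2 h_aM11 h_aT2 h_aS3 h_aM21 h_aM12 h_aT3] at p4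
  have p5 := pos5 u0 u1 u2 u3 u4 v0 v1 v2 v3 v4 g0 g1 g2 g3 g4 w hu0 hu1 hu2 hu3 hu4 hv0 hv1 hv2 hv3 hv4 hg0
      hg1 hg2 hg3 hg4 hw
  rw [idn5 u0 u1 u2 u3 u4 v0 v1 v2 v3 v4 g0 g1 g2 g3 g4 w aS1 aT1 aS2 aM11 aT2 aS3 aM21 aM12 aT3 e0 e1
      e2 e3 e4 ew h_aS1 h_aT1 h_aS2 h_aM11 h_aT2 h_aS3 h_aM21 h_aM12 h_aT3] at p5
  have p6 := pos6 u0 u1 u2 u3 u4 v0 v1 v2 v3 v4 g0 g1 g2 g3 g4 w hu0 hu1 hu2 hu3 hu4 hv0 hv1 hv2 hv3 hv4 hg0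
      hg1 hg2 hg3 hg4 hw
  rw [idn6 u0 u1 u2 u3 u4 v0 v1 v2 v3 v4 g0 g1 g2 g3 g4 w aS1 aT1 aS2 aM11 aT2 aS3 aM21 aM12 aT3 e0 e1
      e2 e3 e4 ew h_aS1 h_aT1 h_aS2 h_aM11 h_aT2 h_aS3 h_aM21 h_aM12 h_aT3] at p6
  have p7 := pos7 u0 u1 u2 u3 u4 v0 v1 v2 v3 v4 g0 g1 g2 g3 g4 w hu0 hu1 hu2 hu3 hu4 hv0 hv1 hv2 hv3 hv4 hg0
      hg1 hg2 hg3 hg4 hw
  rw [idn7 u0 u1 u2 u3 u4 v0 v1 v2 v3 v4 g0 g1 g2 g3 g4 w aS1 aT1 aS2 aM11 aT2 aS3 aM21 aM12 aT3 e0 e1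
      e2 e3 e4 ew h_aS1 h_aT1 h_aS2 h_aM11 h_aT2 h_aS3 h_aM21 h_aM12 h_aT3] at p7
  have p8 := pos8 u0 u1 u2 u3 u4 v0 v1 v2 v3 v4 g0 g1 g2 g3 g4 w hu0 hu1 hu2 hu3 hu4 hv0 hv1 hv2 hv3 hv4 hg0
      hg1 hg2 hg3 hg4 hw
  rw [idn8 u0 u1 u2 u3 u4 v0 v1 v2 v3 v4 g0 g1 g2 g3 g4 w aS1 aT1 aS2 aM11 aT2 aS3 aM21 aM12 aT3 e0 e1
      e2 e3 e4 ew h_aS1 h_aT1 h_aS2 h_aM11 h_aT2 h_aS3 h_aM21 h_aM12 h_aT3] at p8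
  have p9 := pos9 u0 u1 u2 u3 u4 v0 v1 v2 v3 v4 g0 g1 g2 g3 g4 w hu0 hu1 hu2 hu3 hu4 hv0 hv1 hv2 hv3 hv4 hg0
      hg1 hg2 hg3 hg4 hw
  rw [idn9 u0 u1 u2 u3 u4 v0 v1 v2 v3 v4 g0 g1 g2 g3 g4 w aS1 aT1 aS2 aM11 aT2 aS3 aM21 aM12 aT3 e0 e1
      e2 e3 e4 ew h_aS1 h_aT1 h_aS2 h_aM11 h_aT2 h_aS3 h_aM21 h_aM12 h_aT3] at p9
  have p10 := pos10 u0 u1 u2 u3 u4 v0 v1 v2 v3 v4 g0 g1 g2 g3 g4 w hu0 hu1 hu2 hu3 hu4 hv0 hv1 hv2 hv3 hv4 hg0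
      hg1 hg2 hg3 hg4 hw
  rw [idn10 u0 u1 u2 u3 u4 v0 v1 v2 v3 v4 g0 g1 g2 g3 g4 w aS1 aT1 aS2 aM11 aT2 aS3 aM21 aM12 aT3 e0 e1
      e2 e3 e4 ew h_aS1 h_aT1 h_aS2 h_aM11 h_aT2 h_aS3 h_aM21 h_aM12 h_aT3] at p10
  have p11 := pos11 u0 u1 u2 u3 u4 v0 v1 v2 v3 v4 g0 g1 g2 g3 g4 w hu0 hu1 hu2 hu3 hu4 hv0 hv1 hv2 hv3 hv4 hg0
      hg1 hg2 hg3 hg4 hw
  rw [idn11 u0 u1 u2 u3 u4 v0 v1 v2 v3 v4 g0 g1 g2 g3 g4 w aS1 aT1 aS2 aM11 aT2 aS3 aM21 aM12 aT3 e0 e1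
      e2 e3 e4 ew h_aS1 h_aT1 h_aS2 h_aM11 h_aT2 h_aS3 h_aM21 h_aM12 h_aT3] at p11
  have p12 := pos12 u0 u1 u2 u3 u4 v0 v1 v2 v3 v4 g0 g1 g2 g3 g4 w hu0 hu1 hu2 hu3 hu4 hv0 hv1 hv2 hv3 hv4 hg0
      hg1 hg2 hg3 hg4 hw
  rw [idn12 u0 u1 u2 u3 u4 v0 v1 v2 v3 v4 g0 g1 g2 g3 g4 w aS1 aT1 aS2 aM11 aT2 aS3 aM21 aM12 aT3 e0 e1
      e2 e3 e4 ew h_aS1 h_aT1 h_aS2 h_aM11 h_aT2 h_aS3 h_aM21 h_aM12 h_aT3] at p12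
  have p13 := pos13 u0 u1 u2 u3 u4 v0 v1 v2 v3 v4 g0 g1 g2 g3 g4 w hu0 hu1 hu2 hu3 hu4 hv0 hv1 hv2 hv3 hv4 hg0
      hg1 hg2 hg3 hg4 hw
  rw [idn13 u0 u1 u2 u3 u4 v0 v1 v2 v3 v4 g0 g1 g2 g3 g4 w aS1 aT1 aS2 aM11 aT2 aS3 aM21 aM12 aT3 e0 e1
      e2 e3 e4 ew h_aS1 h_aT1 h_aS2 h_aM11 h_aT2 h_aS3 h_aM21 h_aM12 h_aT3] at p13
  have p14 := pos14 u0 u1 u2 u3 u4 v0 v1 v2 v3 v4 g0 g1 g2 g3 g4 w hu0 hu1 hu2 hu3 hu4 hv0 hv1 hv2 hv3 hv4 hg0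
      hg1 hg2 hg3 hg4 hw
  rw [idn14 u0 u1 u2 u3 u4 v0 v1 v2 v3 v4 g0 g1 g2 g3 g4 w aS1 aT1 aS2 aM11 aT2 aS3 aM21 aM12 aT3 e0 e1
      e2 e3 e4 ew h_aS1 h_aT1 h_aS2 h_aM11 h_aT2 h_aS3 h_aM21 h_aM12 h_aT3] at p14
  have p15 := pos15 u0 u1 u2 u3 u4 v0 v1 v2 v3 v4 g0 g1 g2 g3 g4 w hu0 hu1 hu2 hu3 hu4 hv0 hv1 hv2 hv3 hv4 hg0
      hg1 hg2 hg3 hg4 hw
  rw [idn15 u0 u1 u2 u3 u4 v0 v1 v2 v3 v4 g0 g1 g2 g3 g4 w aS1 aT1 aS2 aM11 aT2 aS3 aM21 aM12 aT3 e0 e1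
      e2 e3 e4 ew h_aS1 h_aT1 h_aS2 h_aM11 h_aT2 h_aS3 h_aM21 h_aM12 h_aT3] at p15
  have p16 := pos16 u0 u1 u2 u3 u4 v0 v1 v2 v3 v4 g0 g1 g2 g3 g4 w hu0 hu1 hu2 hu3 hu4 hv0 hv1 hv2 hv3 hv4 hg0
      hg1 hg2 hg3 hg4 hw
  rw [idn16 u0 u1 u2 u3 u4 v0 v1 v2 v3 v4 g0 g1 g2 g3 g4 w aS1 aT1 aS2 aM11 aT2 aS3 aM21 aM12 aT3 e0 e1
      e2 e3 e4 ew h_aS1 h_aT1 h_aS2 h_aM11 h_aT2 h_aS3 h_aM21 h_aM12 h_aT3] at p16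
  have p17 := pos17 u0 u1 u2 u3 u4 v0 v1 v2 v3 v4 g0 g1 g2 g3 g4 w hu0 hu1 hu2 hu3 hu4 hv0 hv1 hv2 hv3 hv4 hg0
      hg1 hg2 hg3 hg4 hw
  rw [idn17 u0 u1 u2 u3 u4 v0 v1 v2 v3 v4 g0 g1 g2 g3 g4 w aS1 aT1 aS2 aM11 aT2 aS3 aM21 aM12 aT3 e0 e1
      e2 e3 e4 ew h_aS1 h_aT1 h_aS2 h_aM11 h_aT2 h_aS3 h_aM21 h_aM12 h_aT3] at p17
  have p18 := pos18 u0 u1 u2 u3 u4 v0 v1 v2 v3 v4 g0 g1 g2 g3 g4 w hu0 hu1 hu2 hu3 hu4 hv0 hv1 hv2 hv3 hv4 hg0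
      hg1 hg2 hg3 hg4 hw
  rw [idn18 u0 u1 u2 u3 u4 v0 v1 v2 v3 v4 g0 g1 g2 g3 g4 w aS1 aT1 aS2 aM11 aT2 aS3 aM21 aM12 aT3 e0 e1
      e2 e3 e4 ew h_aS1 h_aT1 h_aS2 h_aM11 h_aT2 h_aS3 h_aM21 h_aM12 h_aT3] at p18
  have p19 := pos19 u0 u1 u2 u3 u4 v0 v1 v2 v3 v4 g0 g1 g2 g3 g4 w hu0 hu1 hu2 hu3 hu4 hv0 hv1 hv2 hv3 hv4 hg0
      hg1 hg2 hg3 hg4 hw
  rw [idn19 u0 u1 u2 u3 u4 v0 v1 v2 v3 v4 g0 g1 g2 g3 g4 w aS1 aT1 aS2 aM11 aT2 aS3 aM21 aM12 aT3 e0 e1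
      e2 e3 e4 ew h_aS1 h_aT1 h_aS2 h_aM11 h_aT2 h_aS3 h_aM21 h_aM12 h_aT3] at p19
  have p20 := pos20 u0 u1 u2 u3 u4 v0 v1 v2 v3 v4 g0 g1 g2 g3 g4 w hu0 hu1 hu2 hu3 hu4 hv0 hv1 hv2 hv3 hv4 hg0
      hg1 hg2 hg3 hg4 hw
  rw [idn20 u0 u1 u2 u3 u4 v0 v1 v2 v3 v4 g0 g1 g2 g3 g4 w aS1 aT1 aS2 aM11 aT2 aS3 aM21 aM12 aT3 e0 e1
      e2 e3 e4 ew h_aS1 h_aT1 h_aS2 h_aM11 h_aT2 h_aS3 h_aM21 h_aM12 h_aT3] at p20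
  have p21 := pos21 u0 u1 u2 u3 u4 v0 v1 v2 v3 v4 g0 g1 g2 g3 g4 w hu0 hu1 hu2 hu3 hu4 hv0 hv1 hv2 hv3 hv4 hg0
      hg1 hg2 hg3 hg4 hw
  rw [idn21 u0 u1 u2 u3 u4 v0 v1 v2 v3 v4 g0 g1 g2 g3 g4 w aS1 aT1 aS2 aM11 aT2 aS3 aM21 aM12 aT3 e0 e1
      e2 e3 e4 ew h_aS1 h_aT1 h_aS2 h_aM11 h_aT2 h_aS3 h_aM21 h_aM12 h_aT3] at p21
  have p22 := pos22 u0 u1 u2 u3 u4 v0 v1 v2 v3 v4 g0 g1 g2 g3 g4 w hu0 hu1 hu2 hu3 hu4 hv0 hv1 hv2 hv3 hv4 hg0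
      hg1 hg2 hg3 hg4 hw
  rw [idn22 u0 u1 u2 u3 u4 v0 v1 v2 v3 v4 g0 g1 g2 g3 g4 w aS1 aT1 aS2 aM11 aT2 aS3 aM21 aM12 aT3 e0 e1
      e2 e3 e4 ew h_aS1 h_aT1 h_aS2 h_aM11 h_aT2 h_aS3 h_aM21 h_aM12 h_aT3] at p22
  rw [idF u0 u1 u2 u3 u4 v0 v1 v2 v3 v4 aS1 aT1 aS2 aM11 aT2 aS3 aM21 aM12 aT3 h_aS1 h_aT1 h_aS2 h_aM11 h_aT2 h_aS3 h_aM21 h_aM12 h_aT3]
  clear e0 e1 e2 e3 e4 ew h_aS1 h_aT1 h_aS2 h_aM11 h_aT2 h_aS3 h_aM21 h_aM12 h_aT3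
  linarith [mul_nonneg (show (0 : ℝ) ≤ 19801877269 / 16875051543000 by norm_num) p0, mul_nonneg (show (0 : ℝ) ≤ 1204896983737 / 1063128247209000 by norm_num) p1, mul_nonneg (show (0 : ℝ) ≤ 1204896983737 / 212625649441800 by norm_num) p2, mul_nonneg (show (0 : ℝ) ≤ 1630111675487 / 5315641236045 by norm_num) p3, mul_nonneg (show (0 : ℝ) ≤ 22539197846281 / 17010051955344000 by norm_num) p4, mul_nonneg (show (0 : ℝ) ≤ 22 / 3969 by norm_num) p5, mul_nonneg (show (0 : ℝ) ≤ 10047423508393 / 787502405340000 by norm_num) p6, mul_nonneg (show (0 : ℝ) ≤ 3089116576142 / 132891030901125 by norm_num) p7, mul_nonneg (show (0 : ℝ) ≤ 1336306313926 / 44297010300375 by norm_num) p8, mul_nonneg (show (0 : ℝ) ≤ 3402972501797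 / 4821443298000 by norm_num) p9, mul_nonneg (show (0 : ℝ) ≤ 164947510213261 / 12757538966508000 by norm_num) p10, mul_nonneg (show (0 : ℝ) ≤ 1204896983737 / 39375120267000 by norm_num) p11, mul_nonneg (show (0 : ℝ) ≤ 147521789887 / 7875024053400 by norm_num) p12, mul_nonneg (show (0 : ℝ) ≤ 178957696037 / 4321659541500 by norm_num) p13, mul_nonneg (show (0 : ℝ) ≤ 5183726051471 / 265782061802250 by norm_num) p14, mul_nonneg (show (0 : ℝ) ≤ 5610287615561 / 50625154629000 by norm_num) p15, mul_nonneg (show (0 : ℝ) ≤ 767609592637 / 106312824720900 by norm_num) p16, mul_nonneg (show (0 : ℝ) ≤ 580823812241 / 17718804120150 by norm_num) p17, mul_nonneg (show (0 : ℝ) ≤ 6775463138839 / 35437608240300 by norm_num)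 p18, mul_nonneg (show (0 : ℝ) ≤ 1204896983737 / 88594020600750 by norm_num) p19, mul_nonneg (show (0 : ℝ) ≤ 118925 / 12706092 by norm_num) p20, mul_nonneg (show (0 : ℝ) ≤ 95083541334403 / 53156412360450 by norm_num) p21, mul_nonneg (show (0 : ℝ) ≤ 1204896983737 / 265782061802250 by norm_num) p22]

end Pool.Agent.W714.RP
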