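import Pool.Agent.W714.RP.Core

/-!
# The finite inequality behind the theorem on Ricci curvature
-/

set_option autoImplicit false

open scoped BigOperators

namespace Pool.Agent.W714.RP

theorem jsj_le (l r : Fin 5 → ℝ) (K : Fin 5 → Fin 5 → ℝ)
    (hsym : ∀ i j, K i j = K j i) (hd : ∀ i, K i i = 0) (hK : ∀ i j, K i j ≤ 1)
    (hrow : ∀ i, ∑ j, K i j = r i - l i) (hl : ∀ i, l i ≤ 1) :
    ∑ i, ∑ j, l i * l j * K i j ≤ (l 0 + l 1 + l 2 + l 3 + l 4) ^ 2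
      - (l 0 ^ 2 + l 1 ^ 2 + l 2 ^ 2 + l 3 ^ 2 + l 4 ^ 2)
      - ((4 + l 0 - r 0) + (4 + l 1 - r 1) + (4 + l 2 - r 2) + (4 + l 3 - r 3) + (4 + l 4 - r 4))
      + 2 * ((1 - l 0) * (4 + l 0 - r 0) + (1 - l 1) * (4 + l 1 - r 1)
        + (1 - l 2) * (4 + l 2 - r 2) + (1 - l 3) * (4 + l 3 - r 3)
        + (1 - l 4) * (4 + l 4 - r 4)) := by
  have r0 := hrow 0
  have r1 := hrow 1
  have r2 := hrow 2
  have r3 := hrow 3
  have r4 := hrow 4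
  simp only [Fin.sum_univ_five] at r0 r1 r2 r3 r4 ⊢
  rw [hsym 1 0] at r1
  rw [hsym 2 0, hsym 2 1] at r2
  rw [hsym 3 0, hsym 3 1, hsym 3 2] at r3
  rw [hsym 4 0, hsym 4 1, hsym 4 2, hsym 4 3] at r4
  rw [hsym 1 0, hsym 2 0, hsym 2 1, hsym 3 0, hsym 3 1, hsym 3 2, hsym 4 0, hsym 4 1, hsym 4 2,
    hsym 4 3]
  rw [hd 0] at r0
  rw [hd 1] at r1
  rw [hd 2] at r2
  rw [hd 3] at r3
  rw [hd 4] at r4
  rw [hd 0, hd 1, hd 2, hd 3, hd 4]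
  have p : ∀ i j, 0 ≤ (1 - l i) * (1 - l j) * (1 - K i j) := fun i j =>
    mul_nonneg (mul_nonneg (sub_nonneg.2 (hl i)) (sub_nonneg.2 (hl j))) (sub_nonneg.2 (hK i j))
  have p1 := p 0 1
  have p2 := p 0 2
  have p3 := p 0 3
  have p4 := p 0 4
  have p5 := p 1 2
  have p6 := p 1 3
  have p7 := p 1 4
  have p8 := p 2 3
  have p9 := p 2 4
  have p10 := p 3 4
  have key : (l 0 + l 1 + l 2 + l 3 + l 4) ^ 2
      - (l 0 ^ 2 + l 1 ^ 2 + l 2 ^ 2 + l 3 ^ 2 + l 4 ^ 2)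
      - ((4 + l 0 - r 0) + (4 + l 1 - r 1) + (4 + l 2 - r 2) + (4 + l 3 - r 3) + (4 + l 4 - r 4))
      + 2 * ((1 - l 0) * (4 + l 0 - r 0) + (1 - l 1) * (4 + l 1 - r 1)
        + (1 - l 2) * (4 + l 2 - r 2) + (1 - l 3) * (4 + l 3 - r 3)
        + (1 - l 4) * (4 + l 4 - r 4)) -
      2 * (l 0 * l 1 * K 0 1 + l 0 * l 2 * K 0 2 + l 0 * l 3 * K 0 3 + l 0 * l 4 * K 0 4
        + l 1 * l 2 * K 1 2 + l 1 * l 3 * K 1 3 + l 1 * l 4 * K 1 4 + l 2 * l 3 * K 2 3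
        + l 2 * l 4 * K 2 4 + l 3 * l 4 * K 3 4) =
      2 * ((1 - l 0) * (1 - l 1) * (1 - K 0 1) + (1 - l 0) * (1 - l 2) * (1 - K 0 2)
        + (1 - l 0) * (1 - l 3) * (1 - K 0 3) + (1 - l 0) * (1 - l 4) * (1 - K 0 4)
        + (1 - l 1) * (1 - l 2) * (1 - K 1 2) + (1 - l 1) * (1 - l 3) * (1 - K 1 3)
        + (1 - l 1) * (1 - l 4) * (1 - K 1 4) + (1 - l 2) * (1 - l 3) * (1 - K 2 3)
        + (1 - l 2) * (1 - l 4) * (1 - K 2 4) + (1 - l 3) * (1 - l 4) * (1 - K 3 4)) := by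
    linear_combination (1 - 2 * l 0) * r0 + (1 - 2 * l 1) * r1 + (1 - 2 * l 2) * r2
      + (1 - 2 * l 3) * r3 + (1 - 2 * l 4) * r4
  linarith

theorem fin_ineq2 (l r : Fin 5 → ℝ) (K : Fin 5 → Fin 5 → ℝ)
    (hsym : ∀ i j, K i j = K j i) (hd : ∀ i, K i i = 0) (hK : ∀ i j, K i j ≤ 1)
    (hrow : ∀ i, ∑ j, K i j = r i - l i) (hl : ∀ i, l i ≤ 1)
    (hr : ∀ i, 353 / 100 ≤ r i) (hj : 353 / 100 ≤ ∑ i, l i) :
    1 / 100 ≤ -259 / 27000 * (∑ i, l i + ∑ i, r i) ^ 3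
      + 21 / 100 * ((∑ i, l i + ∑ i, r i) ^ 2 * ∑ i, l i)
      - 4841 / 3375 * ((∑ i, l i + ∑ i, r i) * (∑ i, l i) ^ 2) + 76 / 27 * (∑ i, l i) ^ 3
      + 2 / 15 * ((∑ i, l i + ∑ i, r i) * ∑ i, l i ^ 2)
      - 21 / 250 * ((∑ i, l i + ∑ i, r i) * ∑ i, l i * r i)
      + 124 / 135 * ((∑ i, l i) * ∑ i, l i * r i)
      + 16 / 27 * ∑ i, l i ^ 3 - 56 / 45 * ∑ i, l i ^ 2 * r i
      - 32 / 135 * ∑ i, ∑ j, l i * l j * K i j := by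
  have h1 := jsj_le l r K hsym hd hK hrow hl
  have hV : ∀ i, 0 ≤ 4 + l i - r i := by
    intro i
    have h2 : ∑ j, K i j ≤ 4 := by
      have h3 : ∑ j, K i j = ∑ j ∈ Finset.univ.erase i, K i j := by
        rw [← Finset.add_sum_erase _ _ (Finset.mem_univ i), hd, zero_add]
      rw [h3]
      calc ∑ j ∈ Finset.univ.erase i, K i j ≤ ∑ j ∈ Finset.univ.erase i, (1 : ℝ) :=
            Finset.sum_le_sum fun j _ => hK i j
        _ = 4 := by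
            rw [Finset.sum_const, Finset.card_erase_of_mem (Finset.mem_univ i)]
            simp
    rw [hrow] at h2
    linarith
  simp only [Fin.sum_univ_five] at hj h1 ⊢
  have h2 := core (1 - l 0) (1 - l 1) (1 - l 2) (1 - l 3) (1 - l 4)
    (4 + l 0 - r 0) (4 + l 1 - r 1) (4 + l 2 - r 2) (4 + l 3 - r 3) (4 + l 4 - r 4)
    (r 0 - 353 / 100) (r 1 - 353 / 100) (r 2 - 353 / 100) (r 3 - 353 / 100) (r 4 - 353 / 100)
    (l 0 + l 1 + l 2 + l 3 + l 4 - 353 / 100)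
    (sub_nonneg.2 (hl 0)) (sub_nonneg.2 (hl 1)) (sub_nonneg.2 (hl 2)) (sub_nonneg.2 (hl 3))
    (sub_nonneg.2 (hl 4)) (hV 0) (hV 1) (hV 2) (hV 3) (hV 4)
    (sub_nonneg.2 (hr 0)) (sub_nonneg.2 (hr 1)) (sub_nonneg.2 (hr 2)) (sub_nonneg.2 (hr 3))
    (sub_nonneg.2 (hr 4)) (sub_nonneg.2 hj) (by ring) (by ring) (by ring) (by ring) (by ring)
    (by ring)
  have e : ∀ i, 1 - (1 - l i) = l i := fun i => by ring
  have e' : ∀ i, 5 - (1 - l i) - (4 + l i - r i) = r i := fun i => by ring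
  simp only [e, e'] at h2
  linarith

end Pool.Agent.W714.RP
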