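import Pool.Agent.W714.HE.Main
import Pool.Agent.W714.ES.Sharp
import Pool.Agent.W714.RP.Pt

/-!
# Six-dimensional curvature tensors: sectional curvature bounded above, Ricci curvature below
-/

set_option autoImplicit false

open scoped BigOperators

namespace Pool.Agent.W714.RP

open Hopf6 Pool.Agent.W714.HE Pool.Agent.W714.ES

theorem av_ff2 {ι : Type} [Fintype ι] (D : Design ι) {R : Ten} (hR : IsCurv R) :
    D.av (ff2 R) = 1 / 5760 * gb R := by
  have e : ff2 R = comb R (-259 / 27000 * sc R ^ 3) (21 / 100 * sc R ^ 2)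
      (-(4841 / 3375 * sc R)) (76 / 27) (2 / 15 * sc R) 0 (-(21 / 250 * sc R)) (124 / 135)
      0 0 0 0 (16 / 27) (-(56 / 45)) 0 0 0 0 0 0 (-(32 / 135)) 0 := by
    funext x
    unfold ff2 comb
    ring
  rw [e, av_comb D hR, gb_eq hR]
  ring

theorem ric_core {R : Ten} (hR : IsCurv R)
    (h : ∀ z : Fin 6 → ℝ, ∑ a, z a ^ 2 = 1 → ∀ y, quad R z y ≤ area2 z y)
    (hRic : ∀ z : Fin 6 → ℝ, ∑ a, z a ^ 2 = 1 → 353 / 100 ≤ jx R z) :
    5760 / 100 ≤ gb R := by
  obtain ⟨ι, _, ⟨D⟩⟩ := exists_design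
  have h1 : 0 ≤ D.av (fun x => ff2 R x + -(1 / 100)) :=
    D.av_nonneg fun i => by
      have := ff2_ge hR (D.unit i) h hRic
      linarith
  have h2 : D.av (fun x => ff2 R x + -(1 / 100)) = D.av (ff2 R) + -(1 / 100) := by
    rw [Design.av_add, Design.av_one]
  rw [h2, av_ff2 D hR] at h1
  linarith

section
variable {V : Type*} [NormedAddCommGroup V] [InnerProductSpace ℝ V]

/-- The Ricci curvature of `R` (computed in the orthonormal basis `e`) is at least `b`. -/
def RicGE (e : OrthonormalBasis (Fin 6) ℝ V) (R : V → V → V → V → ℝ) (b : ℝ) : Prop :=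
  ∀ v : V, ‖v‖ = 1 → b ≤ ∑ i, R (e i) v (e i) v

/-- The Ricci curvature of `R` (computed in the orthonormal basis `e`) is at most `b`. -/
def RicLE (e : OrthonormalBasis (Fin 6) ℝ V) (R : V → V → V → V → ℝ) (b : ℝ) : Prop :=
  ∀ v : V, ‖v‖ = 1 → ∑ i, R (e i) v (e i) v ≤ b

variable (e : OrthonormalBasis (Fin 6) ℝ V) {R : V → V → V → V → ℝ}

theorem jx_vc (hR : AlgCurv R) (c : ℝ) (z : Fin 6 → ℝ) :
    jx (scl c (tn e R)) z = c * ∑ i, R (e i) (vc e z) (e i) (vc e z) := by
  have h1 : ∀ i, R (e i) (vc e z) (e i) (vc e z) =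
      ∑ p, ∑ q, R (e i) (e p) (e i) (e q) * (z p * z q) := by
    intro i
    rw [lin2 e hR]
    refine Finset.sum_congr rfl fun p _ => ?_
    rw [lin4 e hR, Finset.mul_sum]
    refine Finset.sum_congr rfl fun q _ => ?_
    ring
  simp only [h1]
  unfold jx Rc scl tn
  have h2 : ∀ p q : Fin 6, (∑ i, c * R (e p) (e i) (e q) (e i)) * (z p * z q) =
      ∑ i, c * (R (e i) (e p) (e i) (e q) * (z p * z q)) := by
    intro p q
    rw [Finset.sum_mul]
    refine Finset.sum_congr rfl fun i _ => ?_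
    have h3 : R (e p) (e i) (e q) (e i) = R (e i) (e p) (e i) (e q) := by
      rw [hR.anti (e i) (e p) (e q) (e i), hR.pair (e q) (e i) (e i) (e p),
        hR.anti (e i) (e q) (e i) (e p), hR.pair (e i) (e p) (e i) (e q)]
      ring
    rw [h3]
    ring
  simp only [h2]
  rw [Finset.mul_sum]
  simp only [Finset.mul_sum]
  rw [Finset.sum_congr rfl fun p _ => Finset.sum_comm, Finset.sum_comm]

theorem ric_pos (hR : AlgCurv R) {c : ℝ} (hc : 0 < c) (h : SecLE R c)
    (hRic : RicGE e R (353 / 100 * c)) : 5760 / 100 * c ^ 3 ≤ gb (tn e R) := by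
  have h1 := ric_core (scl_curv (tn_curv e hR) c⁻¹)
    (fun x hx y => by
      have := comp_bound1 (k := 1) e hR hc (by rwa [one_mul]) x hx y
      rwa [one_mul] at this)
    (fun z hz => by
      have hz1 : ‖vc e z‖ = 1 := by
        have := vc_norm e z
        rw [hz] at this
        nlinarith [norm_nonneg (vc e z)]
      have h2 := hRic (vc e z) hz1
      rw [jx_vc e hR]
      calc (353 / 100 : ℝ) = c⁻¹ * (353 / 100 * c) := by field_simp
        _ ≤ _ := mul_le_mul_of_nonneg_left h2 (inv_nonneg.2 hc.le))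
  rw [gb_scl] at h1
  have hc3 : 0 < c ^ 3 := by positivity
  calc 5760 / 100 * c ^ 3 ≤ (c⁻¹ ^ 3 * gb (tn e R)) * c ^ 3 :=
        mul_le_mul_of_nonneg_right h1 hc3.le
    _ = gb (tn e R) := by field_simp

theorem ric_neg (hR : AlgCurv R) {c : ℝ} (hc : 0 < c) (h : SecGE R (-c))
    (hRic : RicLE e R (-(353 / 100 * c))) : gb (tn e R) ≤ -(5760 / 100 * c ^ 3) := by
  have hS : SecLE (fun x y z w => - R x y z w) c := by
    intro x y hx hy hxy
    have := h x y hx hy hxy
    linarith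
  have hRic' : RicGE e (fun x y z w => - R x y z w) (353 / 100 * c) := by
    intro v hv
    have := hRic v hv
    rw [Finset.sum_neg_distrib]
    linarith
  have h1 := ric_pos e (neg_curv hR) hc hS hRic'
  rw [gb_neg] at h1
  linarith

theorem const_eq2 (c : ℝ) : 1 / ((8 * Real.pi) ^ 3 * 6) * (5760 / 100 * c ^ 3) =
    1 / 100 * roundGB c := by
  have hpi := Real.pi_pos
  unfold roundGB
  field_simp
  ring

theorem ric_point_pos (hR : AlgCurv R) {c : ℝ} (hc : 0 < c) (h : SecLE R c)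
    (hRic : RicGE e R (353 / 100 * c)) : 1 / 100 * roundGB c ≤ gbc e R := by
  have h1 := ric_pos e hR hc h hRic
  have hpi := Real.pi_pos
  rw [gbc_eq, ← const_eq2]
  exact mul_le_mul_of_nonneg_left h1 (by positivity)

theorem ric_point_neg (hR : AlgCurv R) {c : ℝ} (hc : 0 < c) (h : SecGE R (-c))
    (hRic : RicLE e R (-(353 / 100 * c))) : gbc e R ≤ -(1 / 100 * roundGB c) := by
  have h1 := ric_neg e hR hc h hRic
  have hpi := Real.pi_pos
  rw [gbc_eq, ← const_eq2, ← mul_neg]
  exact mul_le_mul_of_nonneg_left h1 (by positivity)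

end

/-- the Ricci bound is nearly optimal -/
theorem nearly_sharp {c : ℝ} (hc : 0 < c) :
    ∃ R : E6 → E6 → E6 → E6 → ℝ, AlgCurv R ∧ SecGE R (-c) ∧
      RicLE be R (-(879 / 250 * c)) ∧ 0 < gbc be R := by
  set d : ℝ := 500 / 711 * c with hd
  have hd0 : 0 < d := by positivity
  have hq : 0 ≤ (5 * (711 / 500 : ℝ) - 5) * d := by
    have : (0 : ℝ) ≤ 5 * (711 / 500) - 5 := by norm_num
    positivity
  have hcd : 711 / 500 * d = c := by
    rw [hd]
    ring
  refine ⟨fun x y z w => - Rex (711 / 500 * d) ((5 * (711 / 500) - 5) * d) x y z w,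
    neg_curv (Rex_curv _ _), ?_, ?_, ?_⟩
  · intro x y hx hy hxy
    have h1 := Rex_sec (p := 711 / 500 * d) hq x y hx hy hxy
    rw [hcd] at h1 ⊢
    linarith
  · intro v hv
    have h1 := Rex_ein (711 / 500 * d) ((5 * (711 / 500) - 5) * d) v v
    rw [real_inner_self_eq_norm_sq, hv] at h1
    rw [Finset.sum_neg_distrib, h1, hd]
    linarith
  · have h1 := sharp (711 / 500) d
    have h2 : gbc be (fun x y z w => - Rex (711 / 500 * d) ((5 * (711 / 500) - 5) * d) x y z w) =
        - gbc be (Rex (711 / 500 * d) ((5 * (711 / 500) - 5) * d)) := by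
      rw [gbc_eq, gbc_eq, gb_neg]
      ring
    rw [h2, h1]
    have h3 : pol (711 / 500) < 0 := by
      unfold pol
      norm_num
    have h4 := roundGB_pos hd0
    have h5 : pol (711 / 500) / 135 * roundGB d < 0 :=
      mul_neg_of_neg_of_pos (by linarith) h4
    linarith

end Pool.Agent.W714.RP
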